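import Mathlib

set_option autoImplicit false

open Polynomial

namespace Pool.Agent.Work.MP_4f7796_ag

universe u

variable {K : Type u} [Field K]

theorem aeval_smul_homog {S : Type u} [CommRing S] [Algebra K S] {n : ℕ}
    (F : MvPolynomial (Fin 4) K) (hF : F.IsHomogeneous n) (G : S) (y : Fin 4 → S) :
    MvPolynomial.aeval (fun i => G * y i) F = G ^ n * MvPolynomial.aeval y F := by
  rw [F.as_sum, map_sum, map_sum, Finset.mul_sum]
  refine Finset.sum_congr rfl fun m hm => ?_
  rw [MvPolynomial.aeval_monomial, MvPolynomial.aeval_monomial]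
  have hm' : m.degree = n := by
    have := hF (MvPolynomial.mem_support_iff.1 hm)
    rw [Finsupp.degree_eq_weight_one]
    exact this
  simp only [mul_pow]
  rw [Finsupp.prod_mul]
  have : (m.prod fun _ b => G ^ b) = G ^ n := by
    rw [← hm', Finsupp.prod, Finset.prod_pow_eq_pow_sum]
    rfl
  rw [this]
  ring

theorem aeval_homogenize_ne {A : Type u} [Field A] [Algebra K A] (p : K[X]) {n : ℕ}
    (hn : p.natDegree ≤ n) (v : Fin 2 → A) (hv : v 1 ≠ 0) :
    MvPolynomial.aeval v (p.homogenize n) = aeval (v 0 / v 1) p * v 1 ^ n := by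
  have h := eval_homogenize (p := p.map (algebraMap K A)) (n := n)
    (natDegree_map_le.trans hn) v hv
  rw [homogenize_map, MvPolynomial.eval_map] at h
  rw [MvPolynomial.aeval_def, h, eval_map, aeval_def]

theorem aeval_homogenize_zero {A : Type u} [Field A] [Algebra K A] (p : K[X]) (n : ℕ)
    (v : Fin 2 → A) (hv : v 1 = 0) :
    MvPolynomial.aeval v (p.homogenize n) = algebraMap K A (p.coeff n) * v 0 ^ n := by
  rw [homogenize, map_sum, Finset.sum_eq_single (n, 0)]
  · rw [MvPolynomial.aeval_monomial]
    congr 1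
    rw [Finsupp.prod_fintype _ _ (by simp)]
    simp
  · rintro ⟨a, b⟩ hab hne
    rw [MvPolynomial.aeval_monomial]
    have hb : b ≠ 0 := by
      rintro rfl
      rw [Finset.HasAntidiagonal.mem_antidiagonal] at hab
      simp only at hab
      apply hne
      rw [← hab]
      rfl
    rw [Finsupp.prod_fintype _ _ (by simp)]
    simp [hv, hb]
  · intro h
    exfalso
    apply h
    simp

/-- From a rational curve in coordinates to a morphism. -/
theorem conv (F : MvPolynomial (Fin 4) K) (hF : F.IsHomogeneous 3) (x : Fin 4 → K) (hx : x ≠ 0)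
    (y : Fin 4 → K[X]) (hy : MvPolynomial.aeval y F = 0) (ρ c : AlgebraicClosure K) (hc : c ≠ 0)
    (hρ : ∀ i, aeval ρ (y i) = c * algebraMap K _ (x i))
    (hne : ∃ i j, y i * C (x j) ≠ y j * C (x i)) :
    ∃ (d : ℕ) (f : Fin 4 → MvPolynomial (Fin 2) K), 0 < d ∧ (∀ i, (f i).IsHomogeneous d) ∧
      (∀ v : Fin 2 → AlgebraicClosure K, v ≠ 0 → ∃ i, MvPolynomial.aeval v (f i) ≠ 0) ∧
      MvPolynomial.aeval f F = 0 ∧
      ∃ v : Fin 2 → AlgebraicClosure K, v ≠ 0 ∧ ∃ c : AlgebraicClosure K, c ≠ 0 ∧
        ∀ i, MvPolynomial.aeval v (f i) = c * algebraMap K _ (x i) := by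
  obtain ⟨i0, hi0⟩ : ∃ i, x i ≠ 0 := by
    by_contra h
    push Not at h
    exact hx (funext h)
  have hxi0 : algebraMap K (AlgebraicClosure K) (x i0) ≠ 0 := by rwa [Ne, map_eq_zero]
  obtain ⟨G, hG⟩ := (IsPrincipalIdealRing.principal (Ideal.span (Set.range y))).principal
  have hdvd : ∀ i, ∃ z, y i = G * z := by
    intro i
    have : y i ∈ Ideal.span (Set.range y) := Ideal.subset_span ⟨i, rfl⟩
    rw [hG] at this
    exact Ideal.mem_span_singleton.1 this
  choose z hz using hdvd
  have hGm : G ∈ Ideal.span (Set.range y) := by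
    rw [hG]
    exact Submodule.mem_span_singleton_self G
  obtain ⟨a, ha⟩ := Ideal.mem_span_range_iff_exists_fun.1 hGm
  have hG0 : aeval ρ G ≠ 0 := by
    intro h
    have h1 := hρ i0
    rw [hz, map_mul, h, zero_mul] at h1
    exact mul_ne_zero hc hxi0 h1.symm
  have hGne : G ≠ 0 := by
    rintro rfl
    simp at hG0
  have haz : ∑ i, a i * z i = 1 := by
    apply mul_left_cancel₀ hGne
    rw [mul_one, Finset.mul_sum]
    conv_rhs => rw [← ha]
    refine Finset.sum_congr rfl fun i _ => ?_
    rw [hz i]
    ring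
  have hFz : MvPolynomial.aeval z F = 0 := by
    have h1 : y = fun i => G * z i := funext hz
    rw [h1, aeval_smul_homog F hF] at hy
    exact (mul_eq_zero.1 hy).resolve_left (pow_ne_zero 3 hGne)
  have hρz : ∀ i, aeval ρ (z i) = c / aeval ρ G * algebraMap K _ (x i) := by
    intro i
    have h1 := hρ i
    rw [hz, map_mul] at h1
    field_simp
    rw [mul_comm (aeval ρ G)] at h1
    exact h1
  obtain ⟨j0, -, hj0⟩ := Finset.exists_max_image Finset.univ (fun i => (z i).natDegree)
    ⟨0, Finset.mem_univ _⟩
  obtain ⟨d, hd⟩ : ∃ d, d = (z j0).natDegree := ⟨_, rfl⟩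
  have hle : ∀ i, (z i).natDegree ≤ d := by
    intro i
    rw [hd]
    exact hj0 i (Finset.mem_univ _)
  have hdpos : 0 < d := by
    rw [Nat.pos_iff_ne_zero]
    rintro rfl
    have hconst : ∀ i, z i = C ((z i).coeff 0) := fun i =>
      eq_C_of_natDegree_le_zero (hle i)
    obtain ⟨i, j, hij⟩ := hne
    apply hij
    rw [hz i, hz j]
    have h1 := hρz i
    have h2 := hρz j
    rw [hconst i, aeval_C] at h1
    rw [hconst j, aeval_C] at h2
    have h3 : (z i).coeff 0 * x j = (z j).coeff 0 * x i := by
      apply (algebraMap K (AlgebraicClosure K)).injective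
      rw [map_mul, map_mul, h1, h2]
      ring
    rw [hconst i, hconst j, mul_assoc, mul_assoc, ← C_mul, ← C_mul, h3]
  have hz0 : z j0 ≠ 0 := by
    intro h
    rw [h, natDegree_zero] at hd
    omega
  have hhom : ∀ i, ((z i).homogenize d).IsHomogeneous d := fun i => isHomogeneous_homogenize _
  refine ⟨d, fun i => (z i).homogenize d, hdpos, hhom, ?_, ?_, ![ρ, 1], ?_, c / aeval ρ G, ?_, ?_⟩
  · intro v hv
    by_cases hv1 : v 1 = 0
    · have hv0 : v 0 ≠ 0 := by
        intro h
        apply hv
        funext i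
        fin_cases i
        · exact h
        · exact hv1
      refine ⟨j0, ?_⟩
      simp only
      rw [aeval_homogenize_zero _ _ _ hv1]
      apply mul_ne_zero
      · rw [Ne, map_eq_zero, hd]
        exact leadingCoeff_ne_zero.2 hz0
      · exact pow_ne_zero _ hv0
    · by_contra hcon
      push Not at hcon
      have h1 : ∀ i, aeval (v 0 / v 1) (z i) = 0 := by
        intro i
        have := hcon i
        rw [aeval_homogenize_ne _ (hle i) _ hv1] at this
        exact (mul_eq_zero.1 this).resolve_right (pow_ne_zero _ hv1)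
      have h2 := congrArg (aeval (v 0 / v 1)) haz
      rw [map_sum, map_one] at h2
      simp only [map_mul, h1, mul_zero, Finset.sum_const_zero] at h2
      exact zero_ne_one h2
  · have h1 : (MvPolynomial.aeval (fun i => (z i).homogenize d) F).IsHomogeneous (d * 3) :=
      hF.aeval _ hhom
    have h2 := homogenize_eq_of_isHomogeneous h1 (p := 0) (by
      have h3 : MvPolynomial.aeval ![(X : K[X]), 1]
          (MvPolynomial.aeval (fun i => (z i).homogenize d) F) = MvPolynomial.aeval z F := by
        rw [← AlgHom.comp_apply, MvPolynomial.comp_aeval]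
        congr 2
        funext i
        exact aeval_homogenize_X_one _ (hle i)
      rw [h3, hFz])
    rw [homogenize_zero] at h2
    exact h2.symm
  · intro h
    have := congrFun h 1
    simp at this
  · exact div_ne_zero hc hG0
  · intro i
    simp only
    rw [aeval_homogenize_ne _ (hle i) _ (by simp)]
    simp only [Matrix.cons_val_zero, Matrix.cons_val_one, div_one, one_pow, mul_one]
    exact hρz i

end Pool.Agent.Work.MP_4f7796_ag
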