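import Mathlib

set_option autoImplicit false

namespace Pool.Agent.Work.MP_4f7796_ag

universe u

variable {K : Type u} [Field K]

open Matrix

theorem exists_basis_aux {V : Type u} [AddCommGroup V] [Module K V] [FiniteDimensional K V]
    (φ : V →ₗ[K] K) (hφ : φ ≠ 0) (hV : Module.finrank K V = 4) (x : V) (hx : x ≠ 0)
    (hφx : φ x = 0) : ∃ e0 e1 e2 : V, φ e0 = 0 ∧ φ e1 = 0 ∧ φ e2 = 1 ∧
      LinearIndependent K ![e0, e1, e2, x] := by
  have hsurj : Function.Surjective φ := LinearMap.surjective hφ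
  have hrank : Module.finrank K (LinearMap.ker φ) = 3 := by
    have h1 := LinearMap.finrank_range_add_finrank_ker φ
    rw [LinearMap.range_eq_top.2 hsurj, finrank_top, Module.finrank_self, hV] at h1
    omega
  obtain ⟨x', hx'⟩ : ∃ x' : LinearMap.ker φ, (x' : V) = x :=
    ⟨⟨x, by rw [LinearMap.mem_ker, hφx]⟩, rfl⟩
  have hx'0 : x' ≠ 0 := by
    rintro rfl
    apply hx
    rw [← hx']
    rfl
  have hl1 : LinearIndependent K ![x'] := LinearIndependent.of_subsingleton (i := 0) hx'0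
  obtain ⟨e1, he1⟩ := exists_linearIndependent_cons_of_lt_finrank hl1 (by rw [hrank]; norm_num)
  obtain ⟨e0, he0⟩ := exists_linearIndependent_cons_of_lt_finrank he1 (by rw [hrank]; norm_num)
  obtain ⟨e2, he2⟩ := hsurj 1
  have hφe0 : φ e0 = 0 := e0.2
  have hφe1 : φ e1 = 0 := e1.2
  refine ⟨e0, e1, e2, hφe0, hφe1, he2, ?_⟩
  rw [Fintype.linearIndependent_iff]
  intro g hg
  simp only [Fin.sum_univ_four, Matrix.cons_val_zero, Matrix.cons_val_one, Matrix.cons_val] at hg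
  have h2 : g 2 = 0 := by
    have := congrArg φ hg
    simpa only [map_add, map_smul, hφe0, hφe1, hφx, he2, smul_zero, zero_add, add_zero, smul_eq_mul,
      mul_one, mul_zero, map_zero] using this
  rw [h2, zero_smul, add_zero] at hg
  have h7 := Fintype.linearIndependent_iff.1 he0 ![g 0, g 1, g 3] (by
    rw [Fin.sum_univ_three]
    apply Subtype.ext
    rw [Submodule.coe_add, Submodule.coe_add]
    rw [← hx'] at hg
    exact hg)
  intro i
  fin_cases i
  · exact h7 0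
  · exact h7 1
  · exact h2
  · exact h7 2

/-- an adapted basis -/
theorem exists_basis (n x : Fin 4 → K) (hn : n ≠ 0) (hx : x ≠ 0) (hnx : ∑ i, n i * x i = 0) :
    ∃ A B : Matrix (Fin 4) (Fin 4) K, A * B = 1 ∧ B * A = 1 ∧ (∀ i, A i 3 = x i) ∧
      ∑ i, n i * A i 0 = 0 ∧ ∑ i, n i * A i 1 = 0 ∧ ∑ i, n i * A i 2 = 1 := by
  obtain ⟨φ, hφ⟩ : ∃ φ : (Fin 4 → K) →ₗ[K] K, ∀ v, φ v = ∑ i, n i * v i :=
    ⟨∑ i, n i • LinearMap.proj i, fun v => by simp⟩
  have hφ0 : φ ≠ 0 := by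
    intro h
    apply hn
    funext i
    have := hφ (Pi.single i 1)
    rw [h] at this
    simpa [Pi.single_apply] using this.symm
  obtain ⟨e0, e1, e2, h0, h1, h2, hli⟩ := exists_basis_aux φ hφ0 (by simp) x hx
    (by rw [hφ, hnx])
  have hunit : IsUnit (Matrix.of ![e0, e1, e2, x]) :=
    Matrix.linearIndependent_rows_iff_isUnit.1 hli
  obtain ⟨N, hN⟩ := hunit
  refine ⟨(Matrix.of ![e0, e1, e2, x])ᵀ, (↑N⁻¹ : Matrix (Fin 4) (Fin 4) K)ᵀ, ?_, ?_, ?_, ?_, ?_, ?_⟩
  · rw [← Matrix.transpose_mul, ← hN]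
    simp
  · rw [← Matrix.transpose_mul, ← hN]
    simp
  · intro i
    rfl
  · rw [← h0, hφ]
    rfl
  · rw [← h1, hφ]
    rfl
  · rw [← h2, hφ]
    rfl

end Pool.Agent.Work.MP_4f7796_ag
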