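import Mathlib

set_option autoImplicit false

open Polynomial

namespace Pool.Agent.Work.MP_4f7796_ag

universe u

/-- coefficients of a cubic form `z w² + w Q(x,y,z) + C(x,y,z)` -/
@[ext]
structure P16 (A : Type u) where
  q0 : A
  q1 : A
  q2 : A
  m1 : A
  m2 : A
  m0 : A
  a0 : A
  a1 : A
  a2 : A
  a3 : A
  b0 : A
  b1 : A
  b2 : A
  d0 : A
  d1 : A
  c0 : A

variable {A B : Type u} [CommRing A] [CommRing B]

/-- the cubic form -/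
def nf (p : P16 A) (x y z w : A) : A :=
  z * w ^ 2 + w * (p.q0 * x ^ 2 + p.q1 * (x * y) + p.q2 * y ^ 2 + z * (p.m1 * x + p.m2 * y)
    + p.m0 * z ^ 2) + (p.a0 * x ^ 3 + p.a1 * (x ^ 2 * y) + p.a2 * (x * y ^ 2) + p.a3 * y ^ 3)
    + z * (p.b0 * x ^ 2 + p.b1 * (x * y) + p.b2 * y ^ 2) + z ^ 2 * (p.d0 * x + p.d1 * y)
    + p.c0 * z ^ 3

/-- change of base -/
def P16.map (φ : A →+* B) (p : P16 A) : P16 B where
  q0 := φ p.q0
  q1 := φ p.q1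
  q2 := φ p.q2
  m1 := φ p.m1
  m2 := φ p.m2
  m0 := φ p.m0
  a0 := φ p.a0
  a1 := φ p.a1
  a2 := φ p.a2
  a3 := φ p.a3
  b0 := φ p.b0
  b1 := φ p.b1
  b2 := φ p.b2
  d0 := φ p.d0
  d1 := φ p.d1
  c0 := φ p.c0

theorem nf_map (φ : A →+* B) (p : P16 A) (x y z w : A) :
    nf (p.map φ) (φ x) (φ y) (φ z) (φ w) = φ (nf p x y z w) := by
  simp [nf, P16.map]

/-- `w ↦ w + α x + β y + γ z` -/
def shiftW (p : P16 A) (α β γ : A) : P16 A where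
  q0 := p.q0
  q1 := p.q1
  q2 := p.q2
  m1 := p.m1 + 2 * α
  m2 := p.m2 + 2 * β
  m0 := p.m0 + 2 * γ
  a0 := p.a0 + α * p.q0
  a1 := p.a1 + α * p.q1 + β * p.q0
  a2 := p.a2 + α * p.q2 + β * p.q1
  a3 := p.a3 + β * p.q2
  b0 := p.b0 + γ * p.q0 + α * p.m1 + α ^ 2
  b1 := p.b1 + γ * p.q1 + α * p.m2 + β * p.m1 + 2 * α * β
  b2 := p.b2 + γ * p.q2 + β * p.m2 + β ^ 2
  d0 := p.d0 + γ * p.m1 + α * p.m0 + 2 * α * γ
  d1 := p.d1 + γ * p.m2 + β * p.m0 + 2 * β * γ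
  c0 := p.c0 + γ * p.m0 + γ ^ 2

theorem nf_shiftW (p : P16 A) (α β γ x y z w : A) :
    nf (shiftW p α β γ) x y z w = nf p x y z (w + α * x + β * y + γ * z) := by
  simp only [nf, shiftW]
  ring

theorem shiftW_map (φ : A →+* B) (p : P16 A) (α β γ : A) :
    (shiftW p α β γ).map φ = shiftW (p.map φ) (φ α) (φ β) (φ γ) := by
  apply P16.ext <;> simp only [shiftW, P16.map, map_add, map_mul, map_pow, map_ofNat]

/-- `x ↦ x + a z`, `y ↦ y + b z` -/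
def shiftXY (p : P16 A) (a b : A) : P16 A where
  q0 := p.q0
  q1 := p.q1
  q2 := p.q2
  m1 := p.m1 + 2 * p.q0 * a + p.q1 * b
  m2 := p.m2 + p.q1 * a + 2 * p.q2 * b
  m0 := p.m0 + p.m1 * a + p.m2 * b + p.q0 * a ^ 2 + p.q1 * a * b + p.q2 * b ^ 2
  a0 := p.a0
  a1 := p.a1
  a2 := p.a2
  a3 := p.a3
  b0 := p.b0 + 3 * p.a0 * a + p.a1 * b
  b1 := p.b1 + 2 * p.a1 * a + 2 * p.a2 * b
  b2 := p.b2 + p.a2 * a + 3 * p.a3 * b
  d0 := p.d0 + 2 * p.b0 * a + p.b1 * b + 3 * p.a0 * a ^ 2 + 2 * p.a1 * a * b + p.a2 * b ^ 2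
  d1 := p.d1 + p.b1 * a + 2 * p.b2 * b + p.a1 * a ^ 2 + 2 * p.a2 * a * b + 3 * p.a3 * b ^ 2
  c0 := p.c0 + p.d0 * a + p.d1 * b + p.b0 * a ^ 2 + p.b1 * a * b + p.b2 * b ^ 2
    + p.a0 * a ^ 3 + p.a1 * a ^ 2 * b + p.a2 * a * b ^ 2 + p.a3 * b ^ 3

theorem nf_shiftXY (p : P16 A) (a b x y z w : A) :
    nf (shiftXY p a b) x y z w = nf p (x + a * z) (y + b * z) z w := by
  simp only [nf, shiftXY]
  ring

theorem shiftXY_map (φ : A →+* B) (p : P16 A) (a b : A) :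
    (shiftXY p a b).map φ = shiftXY (p.map φ) (φ a) (φ b) := by
  apply P16.ext <;> simp only [shiftXY, P16.map, map_add, map_mul, map_pow, map_ofNat]

/-- `x ↦ α x + β y`, `y ↦ γ x + δ y` -/
def lin (p : P16 A) (α β γ δ : A) : P16 A where
  q0 := p.q0 * α ^ 2 + p.q1 * α * γ + p.q2 * γ ^ 2
  q1 := 2 * p.q0 * α * β + p.q1 * (α * δ + β * γ) + 2 * p.q2 * γ * δ
  q2 := p.q0 * β ^ 2 + p.q1 * β * δ + p.q2 * δ ^ 2
  m1 := p.m1 * α + p.m2 * γ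
  m2 := p.m1 * β + p.m2 * δ
  m0 := p.m0
  a0 := p.a0 * α ^ 3 + p.a1 * α ^ 2 * γ + p.a2 * α * γ ^ 2 + p.a3 * γ ^ 3
  a1 := 3 * p.a0 * α ^ 2 * β + p.a1 * (α ^ 2 * δ + 2 * α * β * γ) +
    p.a2 * (2 * α * γ * δ + β * γ ^ 2) + 3 * p.a3 * γ ^ 2 * δ
  a2 := 3 * p.a0 * α * β ^ 2 + p.a1 * (2 * α * β * δ + β ^ 2 * γ) +
    p.a2 * (α * δ ^ 2 + 2 * β * γ * δ) + 3 * p.a3 * γ * δ ^ 2
  a3 := p.a0 * β ^ 3 + p.a1 * β ^ 2 * δ + p.a2 * β * δ ^ 2 + p.a3 * δ ^ 3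
  b0 := p.b0 * α ^ 2 + p.b1 * α * γ + p.b2 * γ ^ 2
  b1 := 2 * p.b0 * α * β + p.b1 * (α * δ + β * γ) + 2 * p.b2 * γ * δ
  b2 := p.b0 * β ^ 2 + p.b1 * β * δ + p.b2 * δ ^ 2
  d0 := p.d0 * α + p.d1 * γ
  d1 := p.d0 * β + p.d1 * δ
  c0 := p.c0

theorem nf_lin (p : P16 A) (α β γ δ x y z w : A) :
    nf (lin p α β γ δ) x y z w = nf p (α * x + β * y) (γ * x + δ * y) z w := by
  simp only [nf, lin]
  ring

theorem lin_map (φ : A →+* B) (p : P16 A) (α β γ δ : A) :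
    (lin p α β γ δ).map φ = lin (p.map φ) (φ α) (φ β) (φ γ) (φ δ) := by
  apply P16.ext <;> simp only [lin, P16.map, map_add, map_mul, map_pow, map_ofNat]

variable {K : Type u} [Field K]

/-- There is a (nonconstant) rational curve over `K` on the surface through the point
`(0,0,0,1)`. -/
def Good (p : P16 K) : Prop :=
  ∃ (f g h k : K[X]) (ρ : AlgebraicClosure K),
    aeval ρ f = 0 ∧ aeval ρ g = 0 ∧ aeval ρ h = 0 ∧ aeval ρ k ≠ 0 ∧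
    nf (p.map C) f g h k = 0 ∧ (f ≠ 0 ∨ g ≠ 0 ∨ h ≠ 0)

theorem Good.of_shiftW {p : P16 K} (α β γ : K) (h : Good (shiftW p α β γ)) : Good p := by
  obtain ⟨f, g, h, k, ρ, h1, h2, h3, h4, h5, h6⟩ := h
  refine ⟨f, g, h, k + C α * f + C β * g + C γ * h, ρ, h1, h2, h3, ?_, ?_, h6⟩
  · simpa [h1, h2, h3] using h4
  · rw [shiftW_map, nf_shiftW] at h5
    exact h5

theorem Good.of_shiftXY {p : P16 K} (a b : K) (h : Good (shiftXY p a b)) : Good p := by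
  obtain ⟨f, g, h, k, ρ, h1, h2, h3, h4, h5, h6⟩ := h
  refine ⟨f + C a * h, g + C b * h, h, k, ρ, ?_, ?_, h3, h4, ?_, ?_⟩
  · simp [h1, h3]
  · simp [h2, h3]
  · rw [shiftXY_map, nf_shiftXY] at h5
    exact h5
  · by_contra hcon
    push Not at hcon
    obtain ⟨e1, e2, e3⟩ := hcon
    rw [e3] at e1 e2
    simp only [mul_zero, add_zero] at e1 e2
    rcases h6 with h | h | h
    · exact h e1
    · exact h e2
    · exact h e3

theorem Good.of_lin {p : P16 K} (α β γ δ : K) (hdet : α * δ - β * γ ≠ 0)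
    (h : Good (lin p α β γ δ)) : Good p := by
  obtain ⟨f, g, h, k, ρ, h1, h2, h3, h4, h5, h6⟩ := h
  refine ⟨C α * f + C β * g, C γ * f + C δ * g, h, k, ρ, ?_, ?_, h3, h4, ?_, ?_⟩
  · simp [h1, h2]
  · simp [h1, h2]
  · rw [lin_map, nf_lin] at h5
    exact h5
  · by_contra hcon
    push Not at hcon
    obtain ⟨e1, e2, e3⟩ := hcon
    have e4 : C (α * δ - β * γ) * f = 0 := by
      simp only [C_sub, C_mul]
      linear_combination C δ * e1 - C β * e2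
    have e5 : C (α * δ - β * γ) * g = 0 := by
      simp only [C_sub, C_mul]
      linear_combination C α * e2 - C γ * e1
    have hC : (C (α * δ - β * γ) : K[X]) ≠ 0 := by
      rwa [Ne, C_eq_zero]
    rcases h6 with h | h | h
    · exact h ((mul_eq_zero.1 e4).resolve_left hC)
    · exact h ((mul_eq_zero.1 e5).resolve_left hC)
    · exact h e3

/-- Lemma T: the line joining the point to another rational point `s` is tangent at `s`;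
here `s = (0,0,1,0)`. -/
theorem good_tangent0 (p : P16 K) (hc : p.c0 = 0) (hm : p.m0 = 0) : Good p := by
  -- a direction in the tangent plane at s
  obtain ⟨v0, v1, hv, hd⟩ : ∃ v0 v1 : K, (v0 ≠ 0 ∨ v1 ≠ 0) ∧ p.d0 * v0 + p.d1 * v1 = 0 := by
    by_cases h : p.d0 = 0
    · exact ⟨1, 0, Or.inl one_ne_zero, by simp [h]⟩
    · exact ⟨p.d1, -p.d0, Or.inr (neg_ne_zero.2 h), by ring⟩
  obtain ⟨D, hDd⟩ : ∃ D : K[X], D = 1 + X * C (p.m1 * v0 + p.m2 * v1) +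
    X ^ 2 * C (p.b0 * v0 ^ 2 + p.b1 * (v0 * v1) + p.b2 * v1 ^ 2) := ⟨_, rfl⟩
  obtain ⟨E, hEd⟩ : ∃ E : K[X], E = X ^ 2 * C (p.q0 * v0 ^ 2 + p.q1 * (v0 * v1) + p.q2 * v1 ^ 2) +
    X ^ 3 * C (p.a0 * v0 ^ 3 + p.a1 * (v0 ^ 2 * v1) + p.a2 * (v0 * v1 ^ 2) + p.a3 * v1 ^ 3) :=
    ⟨_, rfl⟩
  have hD : D ≠ 0 := by
    intro h
    have := congrArg (eval 0) h
    simp [hDd] at this
  refine ⟨-D * (X * C v0), -D * (X * C v1), E, -D, 0, ?_, ?_, ?_, ?_, ?_, ?_⟩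
  · simp
  · simp
  · simp [hEd]
  · simp [hDd]
  · have hd' : C p.d0 * C v0 + C p.d1 * C v1 = (0 : K[X]) := by
      rw [← C_mul, ← C_mul, ← C_add, hd, C_0]
    simp only [C_add, C_mul, C_pow] at hDd hEd
    simp only [nf, P16.map, hc, hm, C_0]
    linear_combination (-(D ^ 2 * E)) * hDd + D ^ 3 * hEd + (-((X : K[X]) * E ^ 2 * D)) * hd'
  · rcases hv with h | h
    · left
      intro e
      rcases mul_eq_zero.1 e with e | e
      · exact hD (neg_eq_zero.1 e)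
      · rcases mul_eq_zero.1 e with e | e
        · exact X_ne_zero e
        · exact h (C_eq_zero.1 e)
    · right; left
      intro e
      rcases mul_eq_zero.1 e with e | e
      · exact hD (neg_eq_zero.1 e)
      · rcases mul_eq_zero.1 e with e | e
        · exact X_ne_zero e
        · exact h (C_eq_zero.1 e)

end Pool.Agent.Work.MP_4f7796_ag
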