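import Mathlib
import Pool.Agent.Work.MP_4f7796_ag.Nf

set_option autoImplicit false

open Polynomial

namespace Pool.Agent.Work.MP_4f7796_ag

universe u

section gen
variable {A : Type u} [CommRing A]

/-- directional derivative of `nf` at `(x,y,z,w)` in the direction `(x',y',z',w')` -/
def dnf (p : P16 A) (x y z w x' y' z' w' : A) : A :=
  z' * w ^ 2 + z * (2 * w * w')
  + w' * (p.q0 * x ^ 2 + p.q1 * (x * y) + p.q2 * y ^ 2 + z * (p.m1 * x + p.m2 * y)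
    + p.m0 * z ^ 2)
  + w * (p.q0 * (2 * x * x') + p.q1 * (x' * y + x * y') + p.q2 * (2 * y * y')
    + z' * (p.m1 * x + p.m2 * y) + z * (p.m1 * x' + p.m2 * y') + p.m0 * (2 * z * z'))
  + (p.a0 * (3 * x ^ 2 * x') + p.a1 * (2 * x * x' * y + x ^ 2 * y')
    + p.a2 * (x' * y ^ 2 + x * (2 * y * y')) + p.a3 * (3 * y ^ 2 * y'))
  + z' * (p.b0 * x ^ 2 + p.b1 * (x * y) + p.b2 * y ^ 2)
  + z * (p.b0 * (2 * x * x') + p.b1 * (x' * y + x * y') + p.b2 * (2 * y * y'))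
  + 2 * z * z' * (p.d0 * x + p.d1 * y) + z ^ 2 * (p.d0 * x' + p.d1 * y')
  + p.c0 * (3 * z ^ 2 * z')

theorem nf_comb (p : P16 A) (s t x y z w x' y' z' w' : A) :
    nf p (s * x + t * x') (s * y + t * y') (s * z + t * z') (s * w + t * w') =
      s ^ 3 * nf p x y z w + s ^ 2 * t * dnf p x y z w x' y' z' w'
        + s * t ^ 2 * dnf p x' y' z' w' x y z w + t ^ 3 * nf p x' y' z' w' := by
  simp only [nf, dnf]
  ring

theorem dnf_map {B : Type u} [CommRing B] (φ : A →+* B) (p : P16 A) (x y z w x' y' z' w' : A) :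
    dnf (p.map φ) (φ x) (φ y) (φ z) (φ w) (φ x') (φ y') (φ z') (φ w') =
      φ (dnf p x y z w x' y' z' w') := by
  simp only [dnf, P16.map, map_add, map_mul, map_pow, map_ofNat]

end gen

section quad
variable {A : Type u} [CommRing A]

theorem nf_quad (p : P16 A) (c m : A)
    (P0 P1 P2 P3 : QuadraticAlgebra A (-c) (-m))
    (h : nf (p.map (algebraMap A (QuadraticAlgebra A (-c) (-m)))) P0 P1 P2 P3 = 0) :
    nf p P0.re P1.re P2.re P3.re
      - c * dnf p P0.im P1.im P2.im P3.im P0.re P1.re P2.re P3.re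
      + m * c * nf p P0.im P1.im P2.im P3.im = 0 ∧
    dnf p P0.re P1.re P2.re P3.re P0.im P1.im P2.im P3.im
      - m * dnf p P0.im P1.im P2.im P3.im P0.re P1.re P2.re P3.re
      + (m ^ 2 - c) * nf p P0.im P1.im P2.im P3.im = 0 := by
  let ι := algebraMap A (QuadraticAlgebra A (-c) (-m))
  let ω : QuadraticAlgebra A (-c) (-m) := ⟨0, 1⟩
  have hω : ω ^ 2 = - ι c - ι m * ω := by
    rw [pow_two]
    ext <;> simp [ω, ι]
  have hP : ∀ P : QuadraticAlgebra A (-c) (-m), P = 1 * ι P.re + ω * ι P.im := by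
    intro P
    ext <;> simp [ω, ι]
  rw [hP P0, hP P1, hP P2, hP P3, nf_comb, nf_map, nf_map, dnf_map, dnf_map] at h
  have h2 : ι (nf p P0.re P1.re P2.re P3.re
      - c * dnf p P0.im P1.im P2.im P3.im P0.re P1.re P2.re P3.re
      + m * c * nf p P0.im P1.im P2.im P3.im) +
      ω * ι (dnf p P0.re P1.re P2.re P3.re P0.im P1.im P2.im P3.im
      - m * dnf p P0.im P1.im P2.im P3.im P0.re P1.re P2.re P3.re
      + (m ^ 2 - c) * nf p P0.im P1.im P2.im P3.im) = 0 := by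
    simp only [map_add, map_sub, map_mul, map_pow]
    linear_combination h - (ι (dnf p P0.im P1.im P2.im P3.im P0.re P1.re P2.re P3.re) +
      (ω - ι m) * ι (nf p P0.im P1.im P2.im P3.im)) * hω
  have key : ∀ E0 E1 : A, ι E0 + ω * ι E1 = 0 → E0 = 0 ∧ E1 = 0 := by
    intro E0 E1 hE
    constructor
    · have := congrArg QuadraticAlgebra.re hE
      simpa [ω, ι] using this
    · have := congrArg QuadraticAlgebra.im hE
      simpa [ω, ι] using this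
  exact key _ _ h2

theorem third_point (p : P16 A) (c m : A) (x y z w x' y' z' w' : A)
    (h0 : nf p x y z w - c * dnf p x' y' z' w' x y z w + m * c * nf p x' y' z' w' = 0)
    (h1 : dnf p x y z w x' y' z' w' - m * dnf p x' y' z' w' x y z w
      + (m ^ 2 - c) * nf p x' y' z' w' = 0) (a b : A) (hb : b = nf p x' y' z' w')
    (ha : a = dnf p x' y' z' w' x y z w - m * nf p x' y' z' w') :
    nf p (b * x + (-a) * x') (b * y + (-a) * y') (b * z + (-a) * z') (b * w + (-a) * w') = 0 := by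
  rw [nf_comb]
  have e1 : nf p x' y' z' w' = b := hb.symm
  have e2 : dnf p x' y' z' w' x y z w = a + m * b := by rw [ha, hb]; ring
  have e3 : nf p x y z w = c * a := by rw [e2, e1] at h0; linear_combination h0
  have e4 : dnf p x y z w x' y' z' w' = m * a + c * b := by
    rw [e2, e1] at h1; linear_combination h1
  rw [e1, e2, e3, e4]
  ring

end quad

section typeA

variable {K : Type u} [Field K]

/-- the tangent section at a (possibly non-rational) point of the surface, over any ring in which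
`w² + m₀ w + c₀ = 0` -/
theorem tangent_section {A : Type u} [CommRing A] (p : P16 A) (hq0 : p.q0 = 0) (hq1 : p.q1 = 0)
    (hq2 : p.q2 = 0) (hm1 : p.m1 = 0) (hm2 : p.m2 = 0) (hd1 : p.d1 = 0) (w σ τ Δ Q c1 c2 c3 : A)
    (hw : w ^ 2 + p.m0 * w + p.c0 = 0) (hΔ : Δ = p.m0 ^ 2 - 4 * p.c0) (hc1 : c1 = p.d0 * σ)
    (hc2 : c2 = p.b0 * σ ^ 2 + p.b1 * (σ * τ) + p.b2 * τ ^ 2)
    (hc3 : c3 = p.a0 * σ ^ 3 + p.a1 * (σ ^ 2 * τ) + p.a2 * (σ * τ ^ 2) + p.a3 * τ ^ 3)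
    (hQ : Q = c1 ^ 2 + Δ * c2) :
    nf p (-Δ * Q * σ) (-Δ * Q * τ) (Δ ^ 2 * c3) (w * (Δ ^ 2 * c3) + (2 * w + p.m0) * c1 * Q) = 0
    := by
  have e : nf p (-Δ * Q * σ) (-Δ * Q * τ) (Δ ^ 2 * c3)
      (w * (Δ ^ 2 * c3) + (2 * w + p.m0) * c1 * Q) =
      (Δ ^ 2 * c3) * (w * (Δ ^ 2 * c3) + (2 * w + p.m0) * c1 * Q) ^ 2
      + p.m0 * (Δ ^ 2 * c3) ^ 2 * (w * (Δ ^ 2 * c3) + (2 * w + p.m0) * c1 * Q)
      + (-Δ * Q) ^ 3 * c3 + (Δ ^ 2 * c3) * (-Δ * Q) ^ 2 * c2 + (Δ ^ 2 * c3) ^ 2 * (-Δ * Q) * c1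
      + p.c0 * (Δ ^ 2 * c3) ^ 3 := by
    simp only [nf, hq0, hq1, hq2, hm1, hm2, hd1]
    rw [hc1, hc2, hc3]
    ring
  rw [e]
  linear_combination ((Δ ^ 2 * c3) ^ 3 + 4 * (Δ ^ 2 * c3) ^ 2 * c1 * Q +
    4 * (Δ ^ 2 * c3) * c1 ^ 2 * Q ^ 2) * hw - (Δ ^ 2 * c3) * c1 * Q * (Δ ^ 2 * c3 + c1 * Q) * hΔ
    - Δ ^ 3 * c3 * Q ^ 2 * hQ

theorem aeval_zero_eq (f : K[X]) :
    aeval (0 : AlgebraicClosure K) f = algebraMap K (AlgebraicClosure K) (eval 0 f) := by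
  rw [← map_zero (algebraMap K (AlgebraicClosure K)), aeval_algebraMap_apply_eq_algebraMap_eval]

/-- the norm of the quadratic form is nonzero -/
theorem norm_ne_zero (m c A B D : K) (h : A ≠ 0 ∨ B ≠ 0 ∨ D ≠ 0) (r s : K[X])
    (hr : r = C D + C B * X + C (A - c * D) * X ^ 2)
    (hs : s = C (2 * D) * X + C (B - m * D) * X ^ 2) :
    r ^ 2 - C m * r * s + C c * s ^ 2 ≠ 0 := by
  intro h0
  by_cases hD : D = 0
  · subst hD
    by_cases hB : B = 0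
    · subst hB
      have hA : A ≠ 0 := by simpa using h
      have h1 : (C A : K[X]) ^ 2 * X ^ 4 = 0 := by
        simp only [hr, hs, mul_zero, sub_zero, C_0, zero_mul, add_zero, zero_add] at h0
        linear_combination h0
      rcases mul_eq_zero.1 h1 with h1 | h1
      · exact hA (C_eq_zero.1 (pow_eq_zero_iff (two_ne_zero) |>.1 h1))
      · exact X_ne_zero (pow_eq_zero_iff (by norm_num) |>.1 h1)
    · have h1 : (X : K[X]) ^ 2 * ((C B + C A * X) ^ 2 - C m * (C B + C A * X) * (C B * X)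
          + C c * (C B * X) ^ 2) = 0 := by
        simp only [hr, hs, mul_zero, sub_zero, C_0, zero_mul, zero_add] at h0
        linear_combination h0
      rcases mul_eq_zero.1 h1 with h1 | h1
      · exact X_ne_zero (pow_eq_zero_iff (by norm_num) |>.1 h1)
      · have := congrArg (eval 0) h1
        simp at this
        exact hB this
  · have := congrArg (eval 0) h0
    simp [hr, hs] at this
    exact hD this

theorem good_typeA_final (p : P16 K) (hq0 : p.q0 = 0) (hq1 : p.q1 = 0)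
    (hq2 : p.q2 = 0) (hm1 : p.m1 = 0) (hm2 : p.m2 = 0) (hd1 : p.d1 = 0) (ha3 : p.a3 ≠ 0)
    (Δ : K) (hΔ : Δ = p.m0 ^ 2 - 4 * p.c0) (hΔ0 : Δ ≠ 0)
    (hQ : p.d0 ^ 2 + Δ * p.b0 ≠ 0 ∨ Δ * p.b1 ≠ 0 ∨ Δ * p.b2 ≠ 0) : Good p := by
  let c : K[X] := C p.c0
  let m : K[X] := C p.m0
  let ι := algebraMap K[X] (QuadraticAlgebra K[X] (-c) (-m))
  let ω : QuadraticAlgebra K[X] (-c) (-m) := ⟨0, 1⟩
  have hω : ω ^ 2 + ι m * ω + ι c = 0 := by
    rw [pow_two]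
    ext <;> simp [ω, ι]
  have hext : ∀ (P : QuadraticAlgebra K[X] (-c) (-m)) (E0 E1 : K[X]), P = ι E0 + ω * ι E1 →
      P.re = E0 ∧ P.im = E1 := by
    rintro P E0 E1 rfl
    constructor <;> simp [ω, ι]
  let p' := (p.map C).map ι
  obtain ⟨c1, hc1⟩ : ∃ z, z = p'.d0 * ι X := ⟨_, rfl⟩
  obtain ⟨c2, hc2⟩ : ∃ z, z = p'.b0 * (ι X) ^ 2 + p'.b1 * (ι X * (1 + ω * ι X)) +
    p'.b2 * (1 + ω * ι X) ^ 2 := ⟨_, rfl⟩
  obtain ⟨c3, hc3⟩ : ∃ z, z = p'.a0 * (ι X) ^ 3 + p'.a1 * ((ι X) ^ 2 * (1 + ω * ι X)) +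
    p'.a2 * (ι X * (1 + ω * ι X) ^ 2) + p'.a3 * (1 + ω * ι X) ^ 3 := ⟨_, rfl⟩
  obtain ⟨Q, hQd⟩ : ∃ z, z = c1 ^ 2 + ι (C Δ) * c2 := ⟨_, rfl⟩
  have hnf := tangent_section p' (by simp [p', P16.map, hq0]) (by simp [p', P16.map, hq1])
    (by simp [p', P16.map, hq2]) (by simp [p', P16.map, hm1]) (by simp [p', P16.map, hm2])
    (by simp [p', P16.map, hd1]) ω (ι X) (1 + ω * ι X) (ι (C Δ)) Q c1 c2 c3 hω
    (by simp only [p', P16.map, hΔ, map_sub, map_pow, map_mul, map_ofNat]) hc1 hc2 hc3 hQd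
  obtain ⟨h0, h1⟩ := nf_quad (p.map C) c m _ _ _ _ hnf
  -- explicit real and imaginary parts
  obtain ⟨r, hr⟩ : ∃ r : K[X], r = C (Δ * p.b2) + C (Δ * p.b1) * X +
    C (p.d0 ^ 2 + Δ * p.b0 - p.c0 * (Δ * p.b2)) * X ^ 2 := ⟨_, rfl⟩
  obtain ⟨s, hs⟩ : ∃ s : K[X], s = C (2 * (Δ * p.b2)) * X +
    C (Δ * p.b1 - p.m0 * (Δ * p.b2)) * X ^ 2 := ⟨_, rfl⟩
  have hN := norm_ne_zero p.m0 p.c0 (p.d0 ^ 2 + Δ * p.b0) (Δ * p.b1) (Δ * p.b2) hQ r s hr hs
  have hQrs : Q = ι r + ω * ι s := by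
    rw [hQd, hc1, hc2, hr, hs]
    simp only [p', P16.map, map_add, map_sub, map_mul, map_pow, map_ofNat]
    linear_combination (ι (C Δ) * ι (C p.b2) * ι X ^ 2) * hω
  obtain ⟨c3r, hc3r⟩ : ∃ z : K[X], z = C p.a0 * X ^ 3 + C p.a1 * X ^ 2 +
      C p.a2 * (X * (1 - c * X ^ 2)) + C p.a3 * (1 - 3 * c * X ^ 2 + c * m * X ^ 3) := ⟨_, rfl⟩
  obtain ⟨c3i, hc3i⟩ : ∃ z : K[X], z = C p.a1 * X ^ 3 +
      C p.a2 * (X * (2 * X - m * X ^ 2)) + C p.a3 * (3 * X - 3 * m * X ^ 2 + (m ^ 2 - c) * X ^ 3) :=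
    ⟨_, rfl⟩
  have hc3ri : c3 = ι c3r + ω * ι c3i := by
    rw [hc3, hc3r, hc3i]
    simp only [p', P16.map, map_add, map_sub, map_mul, map_pow, map_ofNat, map_one]
    linear_combination (ι (C p.a2) * ι X ^ 3 + ι (C p.a3) * (3 * ι X ^ 2 +
      (ω - ι m) * ι X ^ 3)) * hω
  obtain ⟨u0, v0⟩ := hext (-ι (C Δ) * Q * ι X) (-(C Δ) * r * X) (-(C Δ) * s * X) (by
    rw [hQrs]
    simp only [map_neg, map_mul]
    ring)
  obtain ⟨u1, v1⟩ := hext (-ι (C Δ) * Q * (1 + ω * ι X)) (-(C Δ) * (r - c * s * X))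
    (-(C Δ) * (s + r * X - m * s * X)) (by
    rw [hQrs]
    simp only [map_neg, map_mul, map_sub, map_add]
    linear_combination (-(ι (C Δ) * ι s * ι X)) * hω)
  obtain ⟨u2, v2⟩ := hext (ι (C Δ) ^ 2 * c3) ((C Δ) ^ 2 * c3r) ((C Δ) ^ 2 * c3i) (by
    rw [hc3ri]
    simp only [map_mul, map_pow]
    ring)
  obtain ⟨u3, v3⟩ := hext (ω * (ι (C Δ) ^ 2 * c3) + (2 * ω + p'.m0) * c1 * Q)
    (-((C Δ) ^ 2 * c * c3i) + C p.d0 * X * (m * r - 2 * c * s))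
    ((C Δ) ^ 2 * (c3r - m * c3i) + C p.d0 * X * (2 * r - m * s)) (by
    rw [hc3ri, hc1, hQrs]
    simp only [p', P16.map, map_add, map_sub, map_mul, map_pow, map_ofNat, map_neg]
    linear_combination (ι (C Δ) ^ 2 * ι c3i + 2 * ι (C p.d0) * ι X * ι s) * hω)
  rw [u0, u1, u2, u3, v0, v1, v2, v3] at h0 h1
  obtain ⟨U3, hU3⟩ : ∃ z : K[X], z = (-((C Δ) ^ 2 * c * c3i) + C p.d0 * X * (m * r - 2 * c * s)) :=
    ⟨_, rfl⟩
  obtain ⟨V3, hV3⟩ : ∃ z : K[X], z = ((C Δ) ^ 2 * (c3r - m * c3i) + C p.d0 * X * (2 * r - m * s)) :=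
    ⟨_, rfl⟩
  rw [← hU3, ← hV3] at h0 h1
  obtain ⟨b, hb⟩ : ∃ z : K[X], z = nf (p.map C) (-(C Δ) * s * X)
    (-(C Δ) * (s + r * X - m * s * X)) ((C Δ) ^ 2 * c3i) V3 := ⟨_, rfl⟩
  obtain ⟨a, ha⟩ : ∃ z : K[X], z = dnf (p.map C) (-(C Δ) * s * X)
    (-(C Δ) * (s + r * X - m * s * X)) ((C Δ) ^ 2 * c3i) V3 (-(C Δ) * r * X)
    (-(C Δ) * (r - c * s * X)) ((C Δ) ^ 2 * c3r) U3 - m * nf (p.map C) (-(C Δ) * s * X)
    (-(C Δ) * (s + r * X - m * s * X)) ((C Δ) ^ 2 * c3i) V3 := ⟨_, rfl⟩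
  have hfin := third_point (p.map C) c m _ _ _ _ _ _ _ _ h0 h1 a b hb ha
  -- values at 0
  have er : eval 0 r = Δ * p.b2 := by simp [hr]
  have es : eval 0 s = 0 := by simp [hs]
  have ec3r : eval 0 c3r = p.a3 := by simp [hc3r]
  have ec3i : eval 0 c3i = 0 := by simp [hc3i]
  have eU3 : eval 0 U3 = 0 := by simp [hU3, ec3i]
  have eV3 : eval 0 V3 = Δ ^ 2 * p.a3 := by simp [hV3, ec3r, ec3i]
  have eb : eval 0 b = 0 := by
    rw [hb]
    simp [nf, es, ec3i]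
  have ea : eval 0 a = Δ ^ 6 * p.a3 ^ 3 := by
    rw [ha]
    simp only [nf, dnf, P16.map, eval_sub, eval_add, eval_mul, eval_pow, eval_neg, eval_C, eval_X,
      eval_ofNat, es, er, ec3i, ec3r, eU3, eV3, hq0, hq1, hq2, hm1, hm2]
    ring
  have ha0 : a ≠ 0 := by
    intro h
    rw [h, eval_zero] at ea
    exact (mul_ne_zero (pow_ne_zero 6 hΔ0) (pow_ne_zero 3 ha3)) ea.symm
  refine ⟨_, _, _, _, 0, ?_, ?_, ?_, ?_, hfin, ?_⟩
  · simp
  · rw [aeval_zero_eq]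
    simp [eb, es]
  · rw [aeval_zero_eq]
    simp [eb, ec3i]
  · rw [aeval_zero_eq]
    simp only [eval_add, eval_mul, eb, zero_mul, zero_add, eval_neg, ea, eV3]
    rw [Ne, map_eq_zero]
    exact mul_ne_zero (neg_ne_zero.2 (mul_ne_zero (pow_ne_zero 6 hΔ0) (pow_ne_zero 3 ha3)))
      (mul_ne_zero (pow_ne_zero 2 hΔ0) ha3)
  · by_contra hcon
    push Not at hcon
    obtain ⟨e1, e2, -⟩ := hcon
    have hCΔ : (C Δ : K[X]) ≠ 0 := by rwa [Ne, C_eq_zero]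
    have f1 : b * r = a * s := by
      have : (C Δ * X) * (b * r - a * s) = 0 := by linear_combination -e1
      have := (mul_eq_zero.1 this).resolve_left (mul_ne_zero hCΔ X_ne_zero)
      linear_combination this
    have f2 : a * r = m * a * s - c * b * s := by
      have : (C Δ * X) * (a * r - m * a * s + c * b * s) = 0 := by
        linear_combination e2 + C Δ * f1
      have := (mul_eq_zero.1 this).resolve_left (mul_ne_zero hCΔ X_ne_zero)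
      linear_combination this
    have f3 : a * (r ^ 2 - C p.m0 * r * s + C p.c0 * s ^ 2) = 0 := by
      show a * (r ^ 2 - m * r * s + c * s ^ 2) = 0
      linear_combination r * f2 - c * s * f1
    exact (mul_ne_zero ha0 hN) f3

end typeA

end Pool.Agent.Work.MP_4f7796_ag
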