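import Mathlib
import Pool.Agent.Work.MP_4f7796_ag.Nf
import Pool.Agent.Work.MP_4f7796_ag.TypeA

set_option autoImplicit false

open Polynomial

namespace Pool.Agent.Work.MP_4f7796_ag

universe u

variable {K : Type u} [Field K]

/-- Lemma T: the line joining the point to another rational point `s = (a,b,1,w)` is tangent
at `s`. -/
theorem good_tangent (p : P16 K) (a b w : K) (h1 : nf p a b 1 w = 0)
    (h2 : 2 * w + (p.q0 * a ^ 2 + p.q1 * a * b + p.q2 * b ^ 2 + p.m1 * a + p.m2 * b + p.m0) = 0) :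
    Good p := by
  apply Good.of_shiftXY a b
  apply Good.of_shiftW 0 0 w
  apply good_tangent0
  · simp only [shiftW, shiftXY]
    simp only [nf] at h1
    linear_combination h1
  · simp only [shiftW, shiftXY]
    linear_combination h2

theorem shiftXY_shiftXY (p : P16 K) (a b a' b' : K) :
    shiftXY (shiftXY p a b) a' b' = shiftXY p (a + a') (b + b') := by
  apply P16.ext <;> simp only [shiftXY] <;> ring

/-- the cubic form at infinity -/
def c3 (p : P16 K) (s t : K) : K :=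
  p.a0 * s ^ 3 + p.a1 * (s ^ 2 * t) + p.a2 * (s * t ^ 2) + p.a3 * t ^ 3

/-- all points of the affine plane are Eckardt -/
structure Bad (p : P16 K) : Prop where
  hC : ∀ s t : K, (s ≠ 0 ∨ t ≠ 0) → c3 p s t ≠ 0
  hΔ : ∀ a b : K, p.m0 ^ 2 - 4 * (shiftXY p a b).c0 ≠ 0
  e0 : ∀ a b : K, (shiftXY p a b).d0 ^ 2 +
    (p.m0 ^ 2 - 4 * (shiftXY p a b).c0) * (shiftXY p a b).b0 = 0
  e1 : ∀ a b : K, 2 * (shiftXY p a b).d0 * (shiftXY p a b).d1 +
    (p.m0 ^ 2 - 4 * (shiftXY p a b).c0) * (shiftXY p a b).b1 = 0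
  e2 : ∀ a b : K, (shiftXY p a b).d1 ^ 2 +
    (p.m0 ^ 2 - 4 * (shiftXY p a b).c0) * (shiftXY p a b).b2 = 0

theorem Bad.origin_odd {p : P16 K} (hp : Bad p) (h2 : (2 : K) ≠ 0) (hm0 : p.m0 = 0) :
    p.d0 = 0 ∧ p.d1 = 0 := by
  by_contra hcon
  have hd : p.d0 ≠ 0 ∨ p.d1 ≠ 0 := by
    by_contra h
    push Not at h
    exact hcon h
  -- the data at the origin
  obtain ⟨Δ, hΔ⟩ : ∃ Δ : K, Δ = -4 * p.c0 := ⟨_, rfl⟩
  have hΔ0 : Δ ≠ 0 := by
    have := hp.hΔ 0 0
    simp only [shiftXY, hm0] at this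
    intro h
    apply this
    rw [hΔ] at h
    linear_combination h
  have g0 : Δ * p.b0 = - p.d0 ^ 2 := by
    have := hp.e0 0 0
    simp only [shiftXY, hm0] at this
    rw [hΔ]
    linear_combination this
  have g1 : Δ * p.b1 = - (2 * p.d0 * p.d1) := by
    have := hp.e1 0 0
    simp only [shiftXY, hm0] at this
    rw [hΔ]
    linear_combination this
  have g2 : Δ * p.b2 = - p.d1 ^ 2 := by
    have := hp.e2 0 0
    simp only [shiftXY, hm0] at this
    rw [hΔ]
    linear_combination this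
  have key : ∀ a b : K, 2 * (p.d0 * a + p.d1 * b) = Δ → 3 * c3 p a b = Δ := by
    intro a b hab
    have hne : a ≠ 0 ∨ b ≠ 0 := by
      by_contra h
      push Not at h
      obtain ⟨ha, hb⟩ := h
      rw [ha, hb] at hab
      apply hΔ0
      linear_combination -hab
    have hc := hp.hC a b hne
    have hC2 : 4 * (p.b0 * a ^ 2 + p.b1 * a * b + p.b2 * b ^ 2) = - Δ := by
      apply mul_left_cancel₀ hΔ0
      linear_combination 4 * a ^ 2 * g0 + 4 * a * b * g1 + 4 * b ^ 2 * g2
        - (2 * (p.d0 * a + p.d1 * b) + Δ) * hab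
    have f0 := hp.e0 a b
    have f1 := hp.e1 a b
    have f2 := hp.e2 a b
    have hc0 : 4 * (shiftXY p a b).c0 = 4 * c3 p a b := by
      simp only [shiftXY, c3]
      linear_combination hC2 + 2 * hab + hΔ
    have h1 : (shiftXY p a b).d0 * a + (shiftXY p a b).d1 * b =
        (p.d0 * a + p.d1 * b) + 2 * (p.b0 * a ^ 2 + p.b1 * a * b + p.b2 * b ^ 2) +
        3 * c3 p a b := by
      simp only [shiftXY, c3]
      ring
    have h1' : 2 * ((shiftXY p a b).d0 * a + (shiftXY p a b).d1 * b) = 2 * (3 * c3 p a b) := by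
      rw [h1]
      linear_combination hab + hC2
    have h1'' := mul_left_cancel₀ h2 h1'
    have h2' : (shiftXY p a b).b0 * a ^ 2 + (shiftXY p a b).b1 * a * b +
        (shiftXY p a b).b2 * b ^ 2 =
        (p.b0 * a ^ 2 + p.b1 * a * b + p.b2 * b ^ 2) + 3 * c3 p a b := by
      simp only [shiftXY, c3]
      ring
    rw [hm0, hc0] at f0 f1 f2
    have h3 : c3 p a b * (Δ - 3 * c3 p a b) = 0 := by
      have : ((shiftXY p a b).d0 * a + (shiftXY p a b).d1 * b) ^ 2 - 4 * c3 p a b *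
        ((shiftXY p a b).b0 * a ^ 2 + (shiftXY p a b).b1 * a * b +
        (shiftXY p a b).b2 * b ^ 2) = 0 := by
        linear_combination a ^ 2 * f0 + a * b * f1 + b ^ 2 * f2
      rw [h1'', h2'] at this
      linear_combination this + c3 p a b * hC2
    rcases mul_eq_zero.1 h3 with h3 | h3
    · exact absurd h3 hc
    · linear_combination -h3
  -- a point on the line
  obtain ⟨a, b, hab⟩ : ∃ a b : K, 2 * (p.d0 * a + p.d1 * b) = Δ := by
    by_cases h0 : p.d0 = 0
    · have h1 : p.d1 ≠ 0 := by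
        rcases hd with h | h
        · exact absurd h0 h
        · exact h
      exact ⟨0, Δ / (2 * p.d1), by field_simp; ring⟩
    · exact ⟨Δ / (2 * p.d0), 0, by field_simp; ring⟩
  have k0 := key a b hab
  by_cases h3 : (3 : K) = 0
  · rw [h3, zero_mul] at k0
    exact hΔ0 k0.symm
  · have kt : ∀ t : K, 3 * c3 p (a - t * p.d1) (b + t * p.d0) = Δ := by
      intro t
      apply key
      linear_combination hab
    have t0 := kt 0
    have t1 := kt 1
    have t2 := kt 2
    have t3 := kt (-1)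
    have hlead : c3 p (-p.d1) p.d0 ≠ 0 := by
      apply hp.hC
      rcases hd with h | h
      · exact Or.inr h
      · exact Or.inl (neg_ne_zero.2 h)
    have h18 : (3 * 3 * 2 : K) * c3 p (-p.d1) p.d0 = 0 := by
      simp only [c3] at t0 t1 t2 t3 ⊢
      linear_combination t2 - 3 * t1 + 3 * t0 - t3
    exact (mul_ne_zero (mul_ne_zero (mul_ne_zero h3 h3) h2) hlead) h18

theorem Bad.shift {p : P16 K} (hp : Bad p) (hq0 : p.q0 = 0) (hq1 : p.q1 = 0) (hq2 : p.q2 = 0)
    (hm1 : p.m1 = 0) (hm2 : p.m2 = 0) (a b : K) : Bad (shiftXY p a b) := by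
  have hm : (shiftXY p a b).m0 = p.m0 := by
    simp [shiftXY, hq0, hq1, hq2, hm1, hm2]
  refine ⟨?_, ?_, ?_, ?_, ?_⟩
  · exact hp.hC
  · intro a' b'
    rw [shiftXY_shiftXY, hm]
    exact hp.hΔ _ _
  · intro a' b'
    rw [shiftXY_shiftXY, hm]
    exact hp.e0 _ _
  · intro a' b'
    rw [shiftXY_shiftXY, hm]
    exact hp.e1 _ _
  · intro a' b'
    rw [shiftXY_shiftXY, hm]
    exact hp.e2 _ _

theorem not_bad_odd [Finite K] {p : P16 K} (hp : Bad p) (hq0 : p.q0 = 0) (hq1 : p.q1 = 0)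
    (hq2 : p.q2 = 0) (hm1 : p.m1 = 0) (hm2 : p.m2 = 0) (h2 : (2 : K) ≠ 0) (hm0 : p.m0 = 0) :
    False := by
  have key : ∀ a b : K, (shiftXY p a b).d0 = 0 ∧ (shiftXY p a b).d1 = 0 := by
    intro a b
    refine (hp.shift hq0 hq1 hq2 hm1 hm2 a b).origin_odd h2 ?_
    simp [shiftXY, hq0, hq1, hq2, hm1, hm2, hm0]
  have h00 := key 0 0
  have h10 := key 1 0
  have h01 := key 0 1
  obtain ⟨x0, x1⟩ := h00
  obtain ⟨y0, y1⟩ := h10
  obtain ⟨z0, z1⟩ := h01
  have hΔ := hp.hΔ 0 0
  have f0 := hp.e0 0 0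
  have f1 := hp.e1 0 0
  have f2 := hp.e2 0 0
  have b0 : p.b0 = 0 := by
    rw [x0] at f0
    have : (p.m0 ^ 2 - 4 * (shiftXY p 0 0).c0) * (shiftXY p 0 0).b0 = 0 := by
      linear_combination f0
    have := (mul_eq_zero.1 this).resolve_left hΔ
    simpa [shiftXY] using this
  have b1 : p.b1 = 0 := by
    rw [x0] at f1
    have : (p.m0 ^ 2 - 4 * (shiftXY p 0 0).c0) * (shiftXY p 0 0).b1 = 0 := by
      linear_combination f1
    have := (mul_eq_zero.1 this).resolve_left hΔ
    simpa [shiftXY] using this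
  have b2 : p.b2 = 0 := by
    rw [x1] at f2
    have : (p.m0 ^ 2 - 4 * (shiftXY p 0 0).c0) * (shiftXY p 0 0).b2 = 0 := by
      linear_combination f2
    have := (mul_eq_zero.1 this).resolve_left hΔ
    simpa [shiftXY] using this
  simp only [shiftXY, b0, b1, b2] at x0 x1 y0 y1 z0 z1
  have ha1 : p.a1 = 0 := by linear_combination y1 - x1
  have ha2 : p.a2 = 0 := by linear_combination z0 - x0
  have ha0 : 3 * p.a0 = 0 := by linear_combination y0 - x0
  have ha3 : 3 * p.a3 = 0 := by linear_combination z1 - x1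
  have c10 := hp.hC 1 0 (Or.inl one_ne_zero)
  by_cases h3 : (3 : K) = 0
  · -- cube roots
    have hinj : Function.Injective (fun x : K => x ^ 3) := by
      intro x y hxy
      simp only at hxy
      have : (x - y) ^ 3 = 0 := by
        linear_combination hxy - (x ^ 2 * y - x * y ^ 2) * h3
      have := pow_eq_zero_iff (by norm_num) |>.1 this
      exact sub_eq_zero.1 this
    have hsurj := Finite.surjective_of_injective hinj
    obtain ⟨α, hα⟩ := hsurj p.a0
    obtain ⟨β, hβ⟩ := hsurj p.a3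
    simp only at hα hβ
    have hα0 : α ≠ 0 := by
      rintro rfl
      apply c10
      simp only [c3]
      linear_combination -hα
    refine hp.hC (-β) α (Or.inr hα0) ?_
    simp only [c3, ha1, ha2]
    rw [← hα, ← hβ]
    ring
  · have : p.a0 = 0 := (mul_eq_zero.1 ha0).resolve_left h3
    apply c10
    simp [c3, this]

theorem not_bad_even {p : P16 K} (hp : Bad p) (h2 : (2 : K) = 0) : False := by
  have h4 : (4 : K) = 0 := by linear_combination 2 * h2
  have hm0 : p.m0 ≠ 0 := by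
    intro h
    apply hp.hΔ 0 0
    rw [h, h4]
    ring
  have hm2 : p.m0 ^ 2 ≠ 0 := pow_ne_zero 2 hm0
  have b1 : p.b1 = 0 := by
    have := hp.e1 0 0
    rw [h2, h4] at this
    simp only [shiftXY] at this
    have : p.m0 ^ 2 * p.b1 = 0 := by linear_combination this
    exact (mul_eq_zero.1 this).resolve_left hm2
  have e0 : ∀ a b : K, (p.d0 + p.a0 * a ^ 2 + p.a2 * b ^ 2) ^ 2 +
      p.m0 ^ 2 * (p.b0 + p.a0 * a + p.a1 * b) = 0 := by
    intro a b
    have := hp.e0 a b
    rw [h4] at this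
    simp only [shiftXY, b1] at this
    have e3 : (3 : K) = 1 := by linear_combination h2
    rw [h2, e3] at this
    linear_combination this
  have e2 : ∀ a b : K, (p.d1 + p.a1 * a ^ 2 + p.a3 * b ^ 2) ^ 2 +
      p.m0 ^ 2 * (p.b2 + p.a2 * a + p.a3 * b) = 0 := by
    intro a b
    have := hp.e2 a b
    rw [h4] at this
    simp only [shiftXY, b1] at this
    have e3 : (3 : K) = 1 := by linear_combination h2
    rw [h2, e3] at this
    linear_combination this
  have ha0 : p.a0 ≠ 0 := by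
    intro h
    apply hp.hC 1 0 (Or.inl one_ne_zero)
    simp [c3, h]
  have ha3 : p.a3 ≠ 0 := by
    intro h
    apply hp.hC 0 1 (Or.inr one_ne_zero)
    simp [c3, h]
  have E00 := e0 0 0
  have F00 := e2 0 0
  have ha : ∀ a : K, a ≠ 0 → p.a0 * a ^ 3 = p.m0 ^ 2 := by
    intro a ha
    have h := e0 a 0
    have : (p.a0 * a) * (p.a0 * a ^ 3 - p.m0 ^ 2) = 0 := by
      linear_combination h - E00 - (p.d0 * p.a0 * a ^ 2 + p.m0 ^ 2 * p.a0 * a) * h2
    have := (mul_eq_zero.1 this).resolve_left (mul_ne_zero ha0 ha)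
    linear_combination this
  have a0eq : p.a0 = p.m0 ^ 2 := by
    have := ha 1 one_ne_zero
    linear_combination this
  have a3eq : p.a3 = p.m0 ^ 2 := by
    have h := e2 0 1
    have : p.a3 * (p.a3 - p.m0 ^ 2) = 0 := by
      linear_combination h - F00 - (p.d1 * p.a3 + p.m0 ^ 2 * p.a3) * h2
    have := (mul_eq_zero.1 this).resolve_left ha3
    linear_combination this
  have r1 : p.a2 ^ 2 = p.m0 ^ 2 * p.a1 := by
    have h := e0 0 1
    linear_combination h - E00 - (p.d0 * p.a2 + p.m0 ^ 2 * p.a1) * h2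
  have r2 : p.a1 ^ 2 = p.m0 ^ 2 * p.a2 := by
    have h := e2 1 0
    linear_combination h - F00 - (p.d1 * p.a1 + p.m0 ^ 2 * p.a2) * h2
  by_cases ha2 : p.a2 = 0
  · have ha1 : p.a1 = 0 := by
      rw [ha2] at r2
      have : p.a1 ^ 2 = 0 := by linear_combination r2
      exact pow_eq_zero_iff (two_ne_zero) |>.1 this
    apply hp.hC 1 1 (Or.inl one_ne_zero)
    simp only [c3, ha1, ha2, a0eq, a3eq]
    linear_combination p.m0 ^ 2 * h2
  · have hm4 : p.m0 ^ 2 ≠ 0 := hm2
    have hne : p.a2 / p.m0 ^ 2 ≠ 0 := div_ne_zero ha2 hm4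
    apply hp.hC 1 (p.a2 / p.m0 ^ 2) (Or.inl one_ne_zero)
    have h := ha _ hne
    rw [a0eq] at h
    obtain ⟨e, he⟩ : ∃ e : K, e = p.a2 / p.m0 ^ 2 := ⟨_, rfl⟩
    have he' : p.a2 = p.m0 ^ 2 * e := by
      rw [he]
      field_simp
    rw [← he] at h ⊢
    have he3 : e ^ 3 = 1 := by
      apply mul_left_cancel₀ hm4
      linear_combination h
    have ha1 : p.a1 = p.m0 ^ 2 * e ^ 2 := by
      apply mul_left_cancel₀ hm4
      rw [he'] at r1
      linear_combination -r1
    simp only [c3, ha1, he', a0eq, a3eq]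
    linear_combination 3 * p.m0 ^ 2 * he3 + 2 * p.m0 ^ 2 * h2

end Pool.Agent.Work.MP_4f7796_ag
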