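import Mathlib
import Pool.Agent.Work.MP_4f7796_ag.Nf
import Pool.Agent.Work.MP_4f7796_ag.TypeA
import Pool.Agent.Work.MP_4f7796_ag.TypeA2

set_option autoImplicit false

open Polynomial

namespace Pool.Agent.Work.MP_4f7796_ag

universe u

variable {K : Type u} [Field K]

theorem good_typeA_eck (p : P16 K) (hq0 : p.q0 = 0) (hq1 : p.q1 = 0) (hq2 : p.q2 = 0)
    (hm1 : p.m1 = 0) (hm2 : p.m2 = 0)
    (hC : ∀ s t : K, (s ≠ 0 ∨ t ≠ 0) → c3 p s t ≠ 0)
    (hΔ : p.m0 ^ 2 - 4 * p.c0 ≠ 0)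
    (hE : p.d0 ^ 2 + (p.m0 ^ 2 - 4 * p.c0) * p.b0 ≠ 0 ∨
      2 * p.d0 * p.d1 + (p.m0 ^ 2 - 4 * p.c0) * p.b1 ≠ 0 ∨
      p.d1 ^ 2 + (p.m0 ^ 2 - 4 * p.c0) * p.b2 ≠ 0) : Good p := by
  by_cases hd1 : p.d1 = 0
  · refine good_typeA_final p hq0 hq1 hq2 hm1 hm2 hd1 ?_ _ rfl hΔ ?_
    · have := hC 0 1 (Or.inr one_ne_zero)
      simpa [c3] using this
    · rw [hd1] at hE
      rcases hE with h | h | h
      · left; exact h
      · right; left
        intro h'
        apply h
        rw [h']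
        ring
      · right; right
        intro h'
        apply h
        rw [h']
        ring
  · apply Good.of_lin 0 (-p.d1) 1 p.d0
    · intro h
      apply hd1
      linear_combination h
    · refine good_typeA_final (lin p 0 (-p.d1) 1 p.d0) ?_ ?_ ?_ ?_ ?_ ?_ ?_ _ rfl ?_ ?_
      · simp [lin, hq0, hq1, hq2]
      · simp [lin, hq0, hq1, hq2]
      · simp [lin, hq0, hq1, hq2]
      · simp [lin, hm1, hm2]
      · simp [lin, hm1, hm2]
      · simp only [lin]
        ring
      · have := hC (-p.d1) p.d0 (Or.inl (neg_ne_zero.2 hd1))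
        simp only [c3] at this
        simp only [lin]
        intro h
        apply this
        linear_combination h
      · exact hΔ
      · simp only [lin]
        by_contra hcon
        push Not at hcon
        obtain ⟨e0, e1, e2⟩ := hcon
        have hD : p.d1 ^ 2 + (p.m0 ^ 2 - 4 * p.c0) * p.b2 = 0 := by
          linear_combination e0
        have hB : 2 * p.d0 * p.d1 + (p.m0 ^ 2 - 4 * p.c0) * p.b1 = 0 := by
          apply (mul_eq_zero.1 (_ : p.d1 * (2 * p.d0 * p.d1 + (p.m0 ^ 2 - 4 * p.c0) * p.b1) =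
            0)).resolve_left hd1
          linear_combination -e1 + 2 * p.d0 * hD
        have hA : p.d0 ^ 2 + (p.m0 ^ 2 - 4 * p.c0) * p.b0 = 0 := by
          apply (mul_eq_zero.1 (_ : p.d1 ^ 2 * (p.d0 ^ 2 + (p.m0 ^ 2 - 4 * p.c0) * p.b0) =
            0)).resolve_left (pow_ne_zero 2 hd1)
          linear_combination e2 + p.d0 * p.d1 * hB - p.d0 ^ 2 * hD
        rcases hE with h | h | h
        · exact h hA
        · exact h hB
        · exact h hD

theorem good_typeA_m0 [Finite K] (p : P16 K) (hq0 : p.q0 = 0) (hq1 : p.q1 = 0) (hq2 : p.q2 = 0)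
    (hm1 : p.m1 = 0) (hm2 : p.m2 = 0)
    (hC : ∀ s t : K, (s ≠ 0 ∨ t ≠ 0) → c3 p s t ≠ 0)
    (hΔ : ∀ a b : K, p.m0 ^ 2 - 4 * (shiftXY p a b).c0 ≠ 0)
    (hm : (2 : K) ≠ 0 → p.m0 = 0) : Good p := by
  have hnb : ¬ Bad p := by
    intro hb
    by_cases h2 : (2 : K) = 0
    · exact not_bad_even hb h2
    · exact not_bad_odd hb hq0 hq1 hq2 hm1 hm2 h2 (hm h2)
  have key : ∃ a b : K, (shiftXY p a b).d0 ^ 2 +
        (p.m0 ^ 2 - 4 * (shiftXY p a b).c0) * (shiftXY p a b).b0 ≠ 0 ∨
      2 * (shiftXY p a b).d0 * (shiftXY p a b).d1 +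
        (p.m0 ^ 2 - 4 * (shiftXY p a b).c0) * (shiftXY p a b).b1 ≠ 0 ∨
      (shiftXY p a b).d1 ^ 2 +
        (p.m0 ^ 2 - 4 * (shiftXY p a b).c0) * (shiftXY p a b).b2 ≠ 0 := by
    by_contra hcon
    push Not at hcon
    exact hnb ⟨hC, hΔ, fun a b => (hcon a b).1, fun a b => (hcon a b).2.1,
      fun a b => (hcon a b).2.2⟩
  obtain ⟨a, b, hab⟩ := key
  have hm0' : (shiftXY p a b).m0 = p.m0 := by
    simp [shiftXY, hq0, hq1, hq2, hm1, hm2]
  apply Good.of_shiftXY a b
  apply good_typeA_eck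
  · exact hq0
  · exact hq1
  · exact hq2
  · simp [shiftXY, hq0, hq1, hm1]
  · simp [shiftXY, hq1, hq2, hm2]
  · exact hC
  · rw [hm0']
    exact hΔ a b
  · rw [hm0']
    exact hab

theorem good_typeA [Finite K] (p : P16 K) (hq0 : p.q0 = 0) (hq1 : p.q1 = 0) (hq2 : p.q2 = 0)
    (hC : ∀ s t : K, (s ≠ 0 ∨ t ≠ 0) → c3 p s t ≠ 0) : Good p := by
  by_contra hbad
  by_cases h2 : (2 : K) = 0
  · have hm : ∀ a b : K, p.m1 * a + p.m2 * b + p.m0 ≠ 0 := by
      intro a b h
      apply hbad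
      have hchar : ringChar K = 2 := by
        have h0 : ((2 : ℕ) : K) = 0 := by exact_mod_cast h2
        have := ringChar.dvd h0
        rcases (Nat.dvd_prime Nat.prime_two).1 this with h1 | h1
        · exfalso
          exact CharP.ringChar_ne_one h1
        · exact h1
      obtain ⟨w, hw⟩ := FiniteField.isSquare_of_char_two hchar (shiftXY p a b).c0
      refine good_tangent p a b w ?_ ?_
      · simp only [shiftXY] at hw
        simp only [nf, hq0, hq1, hq2]
        linear_combination w * h + hw + w ^ 2 * h2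
      · rw [hq0, hq1, hq2]
        linear_combination h + w * h2
    have hm1 : p.m1 = 0 := by
      by_contra h
      apply hm (-p.m0 / p.m1) 0
      field_simp
      ring
    have hm2 : p.m2 = 0 := by
      by_contra h
      apply hm 0 (-p.m0 / p.m2)
      field_simp
      ring
    have hm0 : p.m0 ≠ 0 := by
      have := hm 0 0
      simpa using this
    apply hbad
    apply good_typeA_m0 p hq0 hq1 hq2 hm1 hm2 hC
    · intro a b h
      apply pow_ne_zero 2 hm0
      linear_combination h + 2 * (shiftXY p a b).c0 * h2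
    · intro h
      exact absurd h2 h
  · apply hbad
    apply Good.of_shiftW (-p.m1 / 2) (-p.m2 / 2) (-p.m0 / 2)
    have hm1 : (shiftW p (-p.m1 / 2) (-p.m2 / 2) (-p.m0 / 2)).m1 = 0 := by
      simp only [shiftW]
      field_simp
      ring
    have hm2 : (shiftW p (-p.m1 / 2) (-p.m2 / 2) (-p.m0 / 2)).m2 = 0 := by
      simp only [shiftW]
      field_simp
      ring
    have hm0 : (shiftW p (-p.m1 / 2) (-p.m2 / 2) (-p.m0 / 2)).m0 = 0 := by
      simp only [shiftW]
      field_simp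
      ring
    have hc : ∀ s t : K, c3 (shiftW p (-p.m1 / 2) (-p.m2 / 2) (-p.m0 / 2)) s t = c3 p s t := by
      intro s t
      simp only [c3, shiftW, hq0, hq1, hq2]
      ring
    have hbad' : ¬ Good (shiftW p (-p.m1 / 2) (-p.m2 / 2) (-p.m0 / 2)) :=
      fun h => hbad (Good.of_shiftW _ _ _ h)
    have hq0' : (shiftW p (-p.m1 / 2) (-p.m2 / 2) (-p.m0 / 2)).q0 = 0 := hq0
    have hq1' : (shiftW p (-p.m1 / 2) (-p.m2 / 2) (-p.m0 / 2)).q1 = 0 := hq1
    have hq2' : (shiftW p (-p.m1 / 2) (-p.m2 / 2) (-p.m0 / 2)).q2 = 0 := hq2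
    generalize shiftW p (-p.m1 / 2) (-p.m2 / 2) (-p.m0 / 2) = p' at *
    apply good_typeA_m0 p' hq0' hq1' hq2' hm1 hm2
    · intro s t hst
      rw [hc]
      exact hC s t hst
    · intro a b h
      rw [hm0] at h
      have h4 : (4 : K) ≠ 0 := by
        have : (4 : K) = 2 * 2 := by norm_num
        rw [this]
        exact mul_ne_zero h2 h2
      have h0 : (shiftXY p' a b).c0 = 0 := by
        apply (mul_eq_zero.1 (_ : (4 : K) * (shiftXY p' a b).c0 = 0)).resolve_left h4
        linear_combination -h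
      apply hbad'
      refine good_tangent p' a b 0 ?_ ?_
      · simp only [shiftXY] at h0
        simp only [nf, hq0', hq1', hq2']
        linear_combination h0
      · rw [hq0', hq1', hq2', hm1, hm2, hm0]
        ring
    · intro _
      exact hm0

end Pool.Agent.Work.MP_4f7796_ag
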