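import Mathlib
import Pool.Agent.Work.MP_4f7796_ag.Nf
import Pool.Agent.Work.MP_4f7796_ag.TypeA2

set_option autoImplicit false

open Polynomial

namespace Pool.Agent.Work.MP_4f7796_ag

universe u

theorem typeB_ident {A : Type u} [CommRing A] (p : P16 A) (ha0 : p.a0 = 0) (ha1 : p.a1 = 0)
    (ha2 : p.a2 = 0) (ha3 : p.a3 = 0) (hb0 : p.b0 = 0) (hb2 : p.b2 = 0) (hc0 : p.c0 = 0)
    (x y z E G : A)
    (hE : E = p.b1 * (x * y) + 2 * z * (p.d0 * x + p.d1 * y) -
      p.m0 * (p.q0 * x ^ 2 + p.q1 * (x * y) + p.q2 * y ^ 2 + z * (p.m1 * x + p.m2 * y)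
        + p.m0 * z ^ 2))
    (hG : G = (p.d0 - p.m0 * p.m1) * x + (p.d1 - p.m0 * p.m2) * y - p.m0 ^ 2 * z) :
    nf p (-G * x) (-G * y) (E - G * z) (-p.m0 * E) =
      -G ^ 3 * z * (p.b1 * (x * y) + z * (p.d0 * x + p.d1 * y)) := by
  simp only [nf, ha0, ha1, ha2, ha3, hb0, hb2, hc0]
  rw [hE, hG]
  ring

variable {K : Type u} [Field K]

theorem good_typeB2 (p : P16 K) (ha0 : p.a0 = 0) (ha1 : p.a1 = 0)
    (ha2 : p.a2 = 0) (ha3 : p.a3 = 0) (hb0 : p.b0 = 0) (hb2 : p.b2 = 0) (hc0 : p.c0 = 0)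
    (hd1 : p.d1 ≠ 0) : Good p := by
  by_cases hm0 : p.m0 = 0
  · exact good_tangent0 p hc0 hm0
  obtain ⟨D, hD⟩ : ∃ D : K[X], D = C p.b1 * X + C p.d1 := ⟨_, rfl⟩
  obtain ⟨x, hx⟩ : ∃ x : K[X], x = X * D := ⟨_, rfl⟩
  obtain ⟨y, hy⟩ : ∃ x : K[X], x = -C p.d0 * X := ⟨_, rfl⟩
  obtain ⟨E, hE⟩ : ∃ E : K[X], E = (p.map C).b1 * (x * y) +
      2 * D * ((p.map C).d0 * x + (p.map C).d1 * y) -
      (p.map C).m0 * ((p.map C).q0 * x ^ 2 + (p.map C).q1 * (x * y) + (p.map C).q2 * y ^ 2 +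
        D * ((p.map C).m1 * x + (p.map C).m2 * y)
        + (p.map C).m0 * D ^ 2) := ⟨_, rfl⟩
  obtain ⟨G, hG⟩ : ∃ G : K[X], G = ((p.map C).d0 - (p.map C).m0 * (p.map C).m1) * x +
    ((p.map C).d1 - (p.map C).m0 * (p.map C).m2) * y - (p.map C).m0 ^ 2 * D := ⟨_, rfl⟩
  have hid := typeB_ident (p.map C) (by simp [P16.map, ha0]) (by simp [P16.map, ha1])
    (by simp [P16.map, ha2]) (by simp [P16.map, ha3]) (by simp [P16.map, hb0])
    (by simp [P16.map, hb2]) (by simp [P16.map, hc0]) x y D E G hE hG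
  have hD0 : eval 0 D = p.d1 := by simp [hD]
  have hx0 : eval 0 x = 0 := by simp [hx]
  have hy0 : eval 0 y = 0 := by simp [hy]
  have hE0 : eval 0 E = -p.m0 ^ 2 * p.d1 ^ 2 := by
    rw [hE]
    simp only [P16.map, eval_add, eval_sub, eval_mul, eval_pow, eval_C, eval_ofNat, hD0, hx0, hy0]
    ring
  have hG0 : eval 0 G = -p.m0 ^ 2 * p.d1 := by
    rw [hG]
    simp only [P16.map, eval_add, eval_sub, eval_mul, eval_pow, eval_C, eval_ofNat, hD0, hx0, hy0]
    ring
  refine ⟨_, _, _, _, 0, ?_, ?_, ?_, ?_, hid.trans ?_, ?_⟩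
  · rw [aeval_zero_eq]
    simp [hx0]
  · rw [aeval_zero_eq]
    simp [hy0]
  · rw [aeval_zero_eq]
    simp only [eval_sub, eval_mul, hE0, hG0, hD0]
    rw [map_eq_zero]
    ring
  · rw [aeval_zero_eq]
    simp only [P16.map, eval_neg, eval_mul, eval_C, hE0]
    rw [Ne, map_eq_zero]
    have : (-p.m0 * (-p.m0 ^ 2 * p.d1 ^ 2)) = p.m0 ^ 3 * p.d1 ^ 2 := by ring
    rw [this]
    exact mul_ne_zero (pow_ne_zero 3 hm0) (pow_ne_zero 2 hd1)
  · simp only [P16.map, hx, hy, hD]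
    ring
  · left
    apply mul_ne_zero
    · rw [neg_ne_zero]
      intro h
      rw [h, eval_zero] at hG0
      have : p.m0 ^ 2 * p.d1 = 0 := by linear_combination hG0
      exact (mul_ne_zero (pow_ne_zero 2 hm0) hd1) this
    · rw [hx]
      apply mul_ne_zero X_ne_zero
      intro h
      rw [h, eval_zero] at hD0
      exact hd1 hD0.symm

theorem good_typeB1 (p : P16 K) (ha0 : p.a0 = 0) (ha1 : p.a1 = 0)
    (ha2 : p.a2 = 0) (ha3 : p.a3 = 0) (hb0 : p.b0 = 0) (hb2 : p.b2 = 0) (hb1 : p.b1 ≠ 0) :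
    Good p := by
  obtain ⟨t, ht⟩ : ∃ t : K, p.b1 * t + p.d1 ≠ 0 := by
    by_cases h : p.d1 = 0
    · exact ⟨1, by simpa [h] using hb1⟩
    · exact ⟨0, by simpa using h⟩
  obtain ⟨e, he⟩ : ∃ e : K, (p.b1 * t + p.d1) * e = -(p.d0 * t + p.c0) :=
    ⟨-(p.d0 * t + p.c0) / (p.b1 * t + p.d1), by field_simp⟩
  apply Good.of_shiftXY t e
  apply good_typeB2
  · simp [shiftXY, ha0]
  · simp [shiftXY, ha1]
  · simp [shiftXY, ha2]
  · simp [shiftXY, ha3]
  · simp [shiftXY, ha0, ha1, hb0]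
  · simp [shiftXY, ha2, ha3, hb2]
  · simp only [shiftXY, ha0, ha1, ha2, ha3, hb0, hb2]
    linear_combination he
  · simp only [shiftXY, ha0, ha1, ha2, ha3, hb0, hb2]
    intro h
    apply ht
    linear_combination h

/-- `K ∪ {∞}` to `K²` -/
def ptx : Option K → K
  | none => 1
  | some t => t

/-- `K ∪ {∞}` to `K²` -/
def pty : Option K → K
  | none => 0
  | some _ => 1

theorem good_typeB [Finite K] (p : P16 K)
    (hQ : ∀ s t : K, (s ≠ 0 ∨ t ≠ 0) → p.q0 * s ^ 2 + p.q1 * (s * t) + p.q2 * t ^ 2 ≠ 0)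
    (ha0 : p.a0 = 0) (ha1 : p.a1 = 0) (ha2 : p.a2 = 0) (ha3 : p.a3 = 0)
    (Hs : ∀ s t : AlgebraicClosure K, (s ≠ 0 ∨ t ≠ 0) →
      algebraMap K _ p.q0 * s ^ 2 + algebraMap K _ p.q1 * (s * t) + algebraMap K _ p.q2 * t ^ 2 = 0
      → algebraMap K _ p.b0 * s ^ 2 + algebraMap K _ p.b1 * (s * t) +
        algebraMap K _ p.b2 * t ^ 2 ≠ 0) : Good p := by
  have hne : ∀ u : Option K, ptx u ≠ 0 ∨ pty u ≠ 0 := by
    intro u
    cases u with
    | none => left; exact one_ne_zero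
    | some t => right; exact one_ne_zero
  obtain ⟨κ, hκ⟩ : ∃ κ : Option K → K, ∀ u, p.b0 * ptx u ^ 2 + p.b1 * (ptx u * pty u) +
      p.b2 * pty u ^ 2 = κ u * (p.q0 * ptx u ^ 2 + p.q1 * (ptx u * pty u) +
      p.q2 * pty u ^ 2) :=
    ⟨fun u => (p.b0 * ptx u ^ 2 + p.b1 * (ptx u * pty u) + p.b2 * pty u ^ 2) /
      (p.q0 * ptx u ^ 2 + p.q1 * (ptx u * pty u) + p.q2 * pty u ^ 2), fun u => by
        rw [div_mul_cancel₀ _ (hQ _ _ (hne u))]⟩
  have hninj : ¬ Function.Injective κ := by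
    intro hinj
    have h1 := Nat.card_le_card_of_injective κ hinj
    rw [Finite.card_option] at h1
    omega
  rw [Function.Injective] at hninj
  push Not at hninj
  obtain ⟨u, v, huv, hne'⟩ := hninj
  have hdet : ptx u * pty v - ptx v * pty u ≠ 0 := by
    cases u with
    | none =>
      cases v with
      | none => exact absurd rfl hne'
      | some t => simp [ptx, pty]
    | some s =>
      cases v with
      | none => simp [ptx, pty]
      | some t =>
        simp only [ptx, pty, mul_one]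
        intro h
        apply hne'
        rw [sub_eq_zero.1 h]
  have hu := hκ u
  have hv := hκ v
  rw [← huv] at hv
  generalize κ u = k at *
  generalize ptx u = α at *
  generalize pty u = γ at *
  generalize ptx v = β at *
  generalize pty v = δ at *
  apply Good.of_lin α β γ δ hdet
  apply Good.of_shiftW 0 0 (-k)
  apply good_typeB1
  · simp [shiftW, lin, ha0, ha1, ha2, ha3]
  · simp [shiftW, lin, ha0, ha1, ha2, ha3]
  · simp [shiftW, lin, ha0, ha1, ha2, ha3]
  · simp [shiftW, lin, ha0, ha1, ha2, ha3]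
  · simp only [shiftW, lin]
    linear_combination hu
  · simp only [shiftW, lin]
    linear_combination hv
  · simp only [shiftW, lin]
    intro hb1
    -- a root of Q0 in the algebraic closure
    have hq0 : p.q0 ≠ 0 := by
      have := hQ 1 0 (Or.inl one_ne_zero)
      simpa using this
    obtain ⟨ρ, hρ⟩ := IsAlgClosed.exists_root
      (C (algebraMap K (AlgebraicClosure K) p.q0) * X ^ 2 + C (algebraMap K _ p.q1) * X +
        C (algebraMap K _ p.q2)) (by
          rw [degree_quadratic (by simpa using hq0)]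
          norm_num)
    simp only [IsRoot, eval_add, eval_mul, eval_C, eval_pow, eval_X] at hρ
    refine Hs ρ 1 (Or.inr one_ne_zero) (by linear_combination hρ) ?_
    have hdet' : algebraMap K (AlgebraicClosure K) (α * δ - β * γ) ≠ 0 := by
      rw [Ne, map_eq_zero]
      exact hdet
    have hu' := congrArg (algebraMap K (AlgebraicClosure K)) hu
    have hv' := congrArg (algebraMap K (AlgebraicClosure K)) hv
    have hb1' := congrArg (algebraMap K (AlgebraicClosure K)) hb1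
    simp only [map_add, map_sub, map_mul, map_pow, map_neg, map_ofNat, map_zero] at hu' hv' hb1' hdet'
    apply (mul_eq_zero.1 (_ : (algebraMap K (AlgebraicClosure K) α * algebraMap K _ δ -
      algebraMap K _ β * algebraMap K _ γ) ^ 2 * _ = 0)).resolve_left (pow_ne_zero 2 hdet')
    generalize algebraMap K (AlgebraicClosure K) α = α' at *
    generalize algebraMap K (AlgebraicClosure K) β = β' at *
    generalize algebraMap K (AlgebraicClosure K) γ = γ' at *
    generalize algebraMap K (AlgebraicClosure K) δ = δ' at *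
    linear_combination (δ' * ρ - β') ^ 2 * hu' + (α' - γ' * ρ) ^ 2 * hv' +
      (δ' * ρ - β') * (α' - γ' * ρ) * hb1' + (α' * δ' - β' * γ') ^ 2 *
        algebraMap K (AlgebraicClosure K) k * hρ

end Pool.Agent.Work.MP_4f7796_ag
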