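import Mathlib
import Pool.Agent.Work.MP_4f7796_ag.Nf
import Pool.Agent.Work.MP_4f7796_ag.TypeA3
import Pool.Agent.Work.MP_4f7796_ag.TypeB

set_option autoImplicit false

open Polynomial

namespace Pool.Agent.Work.MP_4f7796_ag

universe u

variable {K : Type u} [Field K]

theorem good_line (p : P16 K) (s t : K) (hst : s ≠ 0 ∨ t ≠ 0)
    (hQ : p.q0 * s ^ 2 + p.q1 * (s * t) + p.q2 * t ^ 2 = 0) (hC : c3 p s t = 0) : Good p := by
  refine ⟨X * C s, X * C t, 0, 1, 0, ?_, ?_, ?_, ?_, ?_, ?_⟩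
  · simp
  · simp
  · simp
  · simp
  · have h1 := congrArg (C : K → K[X]) hQ
    have h2 := congrArg (C : K → K[X]) hC
    simp only [c3, C_add, C_mul, C_pow, C_0] at h1 h2
    simp only [nf, P16.map]
    linear_combination X ^ 2 * h1 + X ^ 3 * h2
  · rcases hst with h | h
    · left
      exact mul_ne_zero X_ne_zero (by rwa [Ne, C_eq_zero])
    · right; left
      exact mul_ne_zero X_ne_zero (by rwa [Ne, C_eq_zero])

theorem good_cubic (p : P16 K) (hQ : p.q0 ≠ 0 ∨ p.q1 ≠ 0 ∨ p.q2 ≠ 0) (s t : AlgebraicClosure K)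
    (hst : s ≠ 0 ∨ t ≠ 0)
    (hQ0 : algebraMap K _ p.q0 * s ^ 2 + algebraMap K _ p.q1 * (s * t) +
      algebraMap K _ p.q2 * t ^ 2 = 0)
    (hC : algebraMap K _ p.a0 * s ^ 3 + algebraMap K _ p.a1 * (s ^ 2 * t) +
      algebraMap K _ p.a2 * (s * t ^ 2) + algebraMap K _ p.a3 * t ^ 3 ≠ 0) : Good p := by
  by_cases ht : t = 0
  · have hs : s ≠ 0 := by
      rcases hst with h | h
      · exact h
      · exact absurd ht h
    rw [ht] at hQ0 hC
    have h1 : algebraMap K (AlgebraicClosure K) p.q0 = 0 := by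
      have : algebraMap K (AlgebraicClosure K) p.q0 * s ^ 2 = 0 := by linear_combination hQ0
      exact (mul_eq_zero.1 this).resolve_right (pow_ne_zero 2 hs)
    have h2 : algebraMap K (AlgebraicClosure K) p.a0 ≠ 0 := by
      intro h
      apply hC
      rw [h]
      ring
    rw [map_eq_zero] at h1
    obtain ⟨Q, hQd⟩ : ∃ Q : K[X], Q = C p.q0 + C p.q1 * X + C p.q2 * X ^ 2 := ⟨_, rfl⟩
    obtain ⟨T, hTd⟩ : ∃ Q : K[X], Q = C p.a0 + C p.a1 * X + C p.a2 * X ^ 2 + C p.a3 * X ^ 3 :=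
      ⟨_, rfl⟩
    have hQn : Q ≠ 0 := by
      intro h
      rw [hQd] at h
      rcases hQ with h' | h' | h'
      · exact h' h1
      · apply h'
        have := congrArg (fun q : K[X] => q.coeff 1) h
        simpa [coeff_X, coeff_C] using this
      · apply h'
        have := congrArg (fun q : K[X] => q.coeff 2) h
        simpa [coeff_X, coeff_C] using this
    refine ⟨Q, X * Q, 0, -T, 0, ?_, ?_, ?_, ?_, ?_, ?_⟩
    · rw [aeval_zero_eq]
      simp [hQd, h1]
    · simp
    · simp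
    · rw [aeval_zero_eq]
      simpa [hTd] using h2
    · simp only [nf, P16.map]
      linear_combination (Q ^ 2 * T) * hQd - (Q ^ 3) * hTd
    · left
      exact hQn
  · obtain ⟨ρ, hρ⟩ : ∃ ρ : AlgebraicClosure K, s = ρ * t := ⟨s / t, by field_simp⟩
    rw [hρ] at hQ0 hC
    have h1 : algebraMap K (AlgebraicClosure K) p.q0 * ρ ^ 2 + algebraMap K _ p.q1 * ρ +
        algebraMap K _ p.q2 = 0 := by
      apply (mul_eq_zero.1 (_ : t ^ 2 * _ = 0)).resolve_left (pow_ne_zero 2 ht)
      linear_combination hQ0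
    have h2 : algebraMap K (AlgebraicClosure K) p.a0 * ρ ^ 3 + algebraMap K _ p.a1 * ρ ^ 2 +
        algebraMap K _ p.a2 * ρ + algebraMap K _ p.a3 ≠ 0 := by
      intro h
      apply hC
      linear_combination t ^ 3 * h
    obtain ⟨Q, hQd⟩ : ∃ Q : K[X], Q = C p.q0 * X ^ 2 + C p.q1 * X + C p.q2 := ⟨_, rfl⟩
    obtain ⟨T, hTd⟩ : ∃ Q : K[X], Q = C p.a0 * X ^ 3 + C p.a1 * X ^ 2 + C p.a2 * X + C p.a3 :=
      ⟨_, rfl⟩
    have hQn : Q ≠ 0 := by
      intro h
      rw [hQd] at h
      rcases hQ with h' | h' | h'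
      · apply h'
        have := congrArg (fun q : K[X] => q.coeff 2) h
        simpa [coeff_X, coeff_C] using this
      · apply h'
        have := congrArg (fun q : K[X] => q.coeff 1) h
        simpa [coeff_X, coeff_C] using this
      · apply h'
        have := congrArg (fun q : K[X] => q.coeff 0) h
        simpa [coeff_X, coeff_C] using this
    refine ⟨X * Q, Q, 0, -T, ρ, ?_, ?_, ?_, ?_, ?_, ?_⟩
    · rw [map_mul, hQd]
      simp only [map_add, map_mul, map_pow, aeval_X, aeval_C]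
      rw [h1, mul_zero]
    · rw [hQd]
      simp only [map_add, map_mul, map_pow, aeval_X, aeval_C]
      exact h1
    · simp
    · rw [hTd]
      simp only [map_neg, map_add, map_mul, map_pow, aeval_X, aeval_C]
      rwa [neg_ne_zero]
    · simp only [nf, P16.map]
      linear_combination (Q ^ 2 * T) * hQd - (Q ^ 3) * hTd
    · right; left
      exact hQn

/-- smoothness at the points of `z = 0` other than `(0,0,0,1)` -/
def Sm (p : P16 K) : Prop := ∀ s t w : AlgebraicClosure K, (s ≠ 0 ∨ t ≠ 0) →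
  nf (p.map (algebraMap K _)) s t 0 w = 0 →
  w * (2 * algebraMap K _ p.q0 * s + algebraMap K _ p.q1 * t) + 3 * algebraMap K _ p.a0 * s ^ 2 +
    2 * algebraMap K _ p.a1 * (s * t) + algebraMap K _ p.a2 * t ^ 2 = 0 →
  w * (algebraMap K _ p.q1 * s + 2 * algebraMap K _ p.q2 * t) + algebraMap K _ p.a1 * s ^ 2 +
    2 * algebraMap K _ p.a2 * (s * t) + 3 * algebraMap K _ p.a3 * t ^ 2 = 0 →
  w ^ 2 + w * (algebraMap K _ p.m1 * s + algebraMap K _ p.m2 * t) + algebraMap K _ p.b0 * s ^ 2 +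
    algebraMap K _ p.b1 * (s * t) + algebraMap K _ p.b2 * t ^ 2 = 0 →
  algebraMap K _ p.q0 * s ^ 2 + algebraMap K _ p.q1 * (s * t) + algebraMap K _ p.q2 * t ^ 2 = 0 →
  False

theorem good_all [Finite K] (p : P16 K) (hs : Sm p) : Good p := by
  by_cases hQ : p.q0 = 0 ∧ p.q1 = 0 ∧ p.q2 = 0
  · obtain ⟨hq0, hq1, hq2⟩ := hQ
    by_cases hC : ∀ s t : K, (s ≠ 0 ∨ t ≠ 0) → c3 p s t ≠ 0
    · exact good_typeA p hq0 hq1 hq2 hC
    · push Not at hC
      obtain ⟨s, t, hst, h⟩ := hC
      refine good_line p s t ?_ (by rw [hq0, hq1, hq2]; ring) h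
      exact hst
  have hQ' : p.q0 ≠ 0 ∨ p.q1 ≠ 0 ∨ p.q2 ≠ 0 := by
    by_contra h
    push Not at h
    exact hQ h
  by_cases hroot : ∃ s t : AlgebraicClosure K, (s ≠ 0 ∨ t ≠ 0) ∧
    algebraMap K _ p.q0 * s ^ 2 + algebraMap K _ p.q1 * (s * t) +
      algebraMap K _ p.q2 * t ^ 2 = 0 ∧ 
    algebraMap K _ p.a0 * s ^ 3 + algebraMap K _ p.a1 * (s ^ 2 * t) +
      algebraMap K _ p.a2 * (s * t ^ 2) + algebraMap K _ p.a3 * t ^ 3 ≠ 0
  · obtain ⟨s, t, h1, h2, h3⟩ := hroot
    exact good_cubic p hQ' s t h1 h2 h3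
  push Not at hroot
  by_cases hK : ∃ s t : K, (s ≠ 0 ∨ t ≠ 0) ∧ p.q0 * s ^ 2 + p.q1 * (s * t) + p.q2 * t ^ 2 = 0
  · obtain ⟨s, t, h1, h2⟩ := hK
    refine good_line p s t h1 h2 ?_
    have := hroot (algebraMap K _ s) (algebraMap K _ t) (by
      rw [Ne, Ne, map_eq_zero, map_eq_zero]
      exact h1) (by
      have := congrArg (algebraMap K (AlgebraicClosure K)) h2
      simpa only [map_add, map_mul, map_pow, map_zero] using this)
    have h3 : algebraMap K (AlgebraicClosure K) (c3 p s t) = 0 := by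
      simp only [c3, map_add, map_mul, map_pow]
      exact this
    rwa [map_eq_zero] at h3
  push Not at hK
  have hq0 : p.q0 ≠ 0 := by
    have := hK 1 0 (Or.inl one_ne_zero)
    simpa using this
  -- division
  obtain ⟨ρ, hρ⟩ := IsAlgClosed.exists_root
      (C (algebraMap K (AlgebraicClosure K) p.q0) * X ^ 2 + C (algebraMap K _ p.q1) * X +
        C (algebraMap K _ p.q2)) (by
          rw [degree_quadratic (by simpa using hq0)]
          norm_num)
  simp only [IsRoot, eval_add, eval_mul, eval_C, eval_pow, eval_X] at hρ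
  have hρK : ∀ r : K, algebraMap K _ r ≠ ρ := by
    intro r hr
    apply hK r 1 (Or.inr one_ne_zero)
    apply (algebraMap K (AlgebraicClosure K)).injective
    simp only [map_add, map_mul, map_pow, map_zero, map_one]
    rw [hr]
    linear_combination hρ
  have hCρ := hroot ρ 1 (Or.inr one_ne_zero) (by linear_combination hρ)
  obtain ⟨α, hα⟩ : ∃ α : K, p.q0 * α = p.a0 := ⟨p.a0 / p.q0, by field_simp⟩
  obtain ⟨β, hβ⟩ : ∃ β : K, p.q0 * β = p.a1 - p.q1 * α := ⟨(p.a1 - p.q1 * α) / p.q0, by field_simp⟩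
  have hr : algebraMap K (AlgebraicClosure K) (p.a2 - p.q1 * β - p.q2 * α) * ρ +
      algebraMap K (AlgebraicClosure K) (p.a3 - p.q2 * β) = 0 := by
    have h1 := congrArg (algebraMap K (AlgebraicClosure K)) hα
    have h2 := congrArg (algebraMap K (AlgebraicClosure K)) hβ
    simp only [map_sub, map_mul] at h1 h2 ⊢
    linear_combination hCρ + ρ ^ 3 * h1 + ρ ^ 2 * h2 - (algebraMap K (AlgebraicClosure K) α * ρ +
      algebraMap K (AlgebraicClosure K) β) * hρ
  have hr1 : p.a2 - p.q1 * β - p.q2 * α = 0 := by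
    by_contra h
    apply hρK (-(p.a3 - p.q2 * β) / (p.a2 - p.q1 * β - p.q2 * α))
    have h' : algebraMap K (AlgebraicClosure K) (p.a2 - p.q1 * β - p.q2 * α) ≠ 0 := by
      rwa [Ne, map_eq_zero]
    rw [map_div₀, map_neg, div_eq_iff h']
    linear_combination -hr
  have hr0 : p.a3 - p.q2 * β = 0 := by
    rw [hr1] at hr
    rw [map_zero, zero_mul, zero_add, map_eq_zero] at hr
    exact hr
  apply Good.of_shiftW (-α) (-β) 0
  apply good_typeB
  · exact hK
  · simp only [shiftW]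
    linear_combination -hα
  · simp only [shiftW]
    linear_combination -hβ
  · simp only [shiftW]
    linear_combination hr1
  · simp only [shiftW]
    linear_combination hr0
  · intro s t hst hq hb
    simp only [shiftW] at hq hb
    have h1 := congrArg (algebraMap K (AlgebraicClosure K)) hα
    have h2 := congrArg (algebraMap K (AlgebraicClosure K)) hβ
    have h3 := congrArg (algebraMap K (AlgebraicClosure K)) hr1
    have h4 := congrArg (algebraMap K (AlgebraicClosure K)) hr0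
    simp only [map_add, map_sub, map_mul, map_pow, map_neg, map_ofNat, map_zero] at h1 h2 h3 h4 hb
    refine hs s t (-(algebraMap K _ α * s) - algebraMap K _ β * t) hst ?_ ?_ ?_ ?_ hq
    · simp only [nf, P16.map]
      linear_combination -s ^ 3 * h1 - s ^ 2 * t * h2 + s * t ^ 2 * h3 + t ^ 3 * h4
    · linear_combination algebraMap K (AlgebraicClosure K) α * hq - 3 * s ^ 2 * h1 -
        2 * s * t * h2 + t ^ 2 * h3
    · linear_combination algebraMap K (AlgebraicClosure K) β * hq - s ^ 2 * h2 +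
        2 * s * t * h3 + 3 * t ^ 2 * h4
    · linear_combination hb

end Pool.Agent.Work.MP_4f7796_ag
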