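import Mathlib
import Pool.Agent.Work.MP_4f7796_ag.Nf
import Pool.Agent.Work.MP_4f7796_ag.NfMain

set_option autoImplicit false

open MvPolynomial

namespace Pool.Agent.Work.MP_4f7796_ag

universe u

variable {K : Type u} [Field K]

theorem chain_rule {σ τ : Type} [Fintype σ] [DecidableEq σ] (g : σ → MvPolynomial τ K)
    (F : MvPolynomial σ K) (j : τ) :
    pderiv j (aeval g F) = ∑ i, aeval g (pderiv i F) * pderiv j (g i) := by
  induction F using MvPolynomial.induction_on with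
  | C a => simp
  | add p q hp hq =>
    simp only [map_add, hp, hq, add_mul, Finset.sum_add_distrib]
  | mul_X p n hp =>
    simp only [map_mul, aeval_X, Derivation.leibniz, smul_eq_mul, map_add, hp, add_mul,
      Finset.sum_add_distrib]
    rw [add_comm, Finset.mul_sum, add_comm]
    congr 1
    · rw [Finset.sum_eq_single n]
      · simp
      · intro b _ hb
        rw [pderiv_X_of_ne (Ne.symm hb)]
        simp
      · simp
    · refine Finset.sum_congr rfl fun i _ => ?_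
      ring

theorem exists_single_of_degree {n : ℕ} (m : Fin 4 →₀ ℕ) (hm : m.degree = n + 1) :
    ∃ (i : Fin 4) (m' : Fin 4 →₀ ℕ), m = Finsupp.single i 1 + m' ∧ m'.degree = n := by
  have hne : m ≠ 0 := by
    rintro rfl
    simp at hm
  obtain ⟨i, hi⟩ := Finsupp.ne_iff.1 hne
  simp only [Finsupp.coe_zero, Pi.zero_apply] at hi
  refine ⟨i, m - Finsupp.single i 1, ?_, ?_⟩
  · rw [add_tsub_cancel_of_le]
    rw [Finsupp.single_le_iff]
    omega
  · have h1 : m = Finsupp.single i 1 + (m - Finsupp.single i 1) := by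
      rw [add_tsub_cancel_of_le]
      rw [Finsupp.single_le_iff]
      omega
    rw [h1, map_add, Finsupp.degree_single] at hm
    omega

theorem exists_T (F : MvPolynomial (Fin 4) K) (hF : F.IsHomogeneous 3) :
    ∃ T : Fin 4 → Fin 4 → Fin 4 → K,
      F = ∑ i, ∑ j, ∑ k, C (T i j k) * (X i * X j * X k) := by
  have key : ∀ s : Finset (Fin 4 →₀ ℕ), (∀ m ∈ s, m.degree = 3) →
      ∀ c : (Fin 4 →₀ ℕ) → K, ∃ T : Fin 4 → Fin 4 → Fin 4 → K,
      ∑ m ∈ s, monomial m (c m) =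
        (∑ i, ∑ j, ∑ k, C (T i j k) * (X i * X j * X k) : MvPolynomial (Fin 4) K) := by
    intro s
    induction s using Finset.induction_on with
    | empty =>
      intro _ c
      exact ⟨fun _ _ _ => 0, by simp⟩
    | insert m s hms ih =>
      intro hs c
      obtain ⟨T, hT⟩ := ih (fun m' hm' => hs m' (Finset.mem_insert_of_mem hm')) c
      obtain ⟨i, m1, h1, h1'⟩ := exists_single_of_degree m (hs m (Finset.mem_insert_self _ _))
      obtain ⟨j, m2, h2, h2'⟩ := exists_single_of_degree m1 h1'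
      obtain ⟨k, m3, h3, h3'⟩ := exists_single_of_degree m2 h2'
      have h4 : m3 = 0 := by
        rwa [Finsupp.degree_eq_zero_iff] at h3'
      have hm : (monomial m (c m) : MvPolynomial (Fin 4) K) = C (c m) * (X i * X j * X k) := by
        rw [h1, h2, h3, h4, add_zero]
        simp only [X, monomial_mul, C_mul_monomial, mul_one]
        rw [add_assoc]
      refine ⟨fun a b d => T a b d + if a = i ∧ b = j ∧ d = k then c m else 0, ?_⟩
      rw [Finset.sum_insert hms, hT, hm]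
      simp only [C_add, add_mul, Finset.sum_add_distrib]
      rw [add_comm]
      congr 1
      symm
      rw [Finset.sum_eq_single i, Finset.sum_eq_single j, Finset.sum_eq_single k]
      · simp
      · intro b _ hb
        simp [hb]
      · simp
      · intro b _ hb
        simp [hb]
      · simp
      · intro b _ hb
        simp [hb]
      · simp
  have := key F.support (fun m hm => by
    have := hF (mem_support_iff.1 hm)
    rw [Finsupp.degree_eq_weight_one]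
    exact this) (fun m => coeff m F)
  obtain ⟨T, hT⟩ := this
  refine ⟨T, ?_⟩
  rw [← hT]
  exact F.as_sum

/-- normal form of a cubic form -/
theorem exists_nf (F : MvPolynomial (Fin 4) K) (hF : F.IsHomogeneous 3)
    (h0 : eval ![0, 0, 0, 1] F = 0)
    (h1 : eval ![0, 0, 0, 1] (pderiv 0 F) = 0)
    (h2 : eval ![0, 0, 0, 1] (pderiv 1 F) = 0)
    (h3 : eval ![0, 0, 0, 1] (pderiv 2 F) = 1) :
    ∃ p : P16 K, F = nf (p.map C) (X 0) (X 1) (X 2) (X 3) := by
  obtain ⟨T, hT⟩ := exists_T F hF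
  have hcol : F = C (T 3 3 3) * X 3 ^ 3 + C (T 0 3 3 + T 3 0 3 + T 3 3 0) * (X 0 * X 3 ^ 2) +
      C (T 1 3 3 + T 3 1 3 + T 3 3 1) * (X 1 * X 3 ^ 2) +
      C (T 2 3 3 + T 3 2 3 + T 3 3 2 - 1) * (X 2 * X 3 ^ 2) +
      nf ((P16.mk (T 3 0 0 + T 0 3 0 + T 0 0 3)
        (T 0 1 3 + T 0 3 1 + T 1 0 3 + T 1 3 0 + T 3 0 1 + T 3 1 0)
        (T 3 1 1 + T 1 3 1 + T 1 1 3)
        (T 0 2 3 + T 0 3 2 + T 2 0 3 + T 2 3 0 + T 3 0 2 + T 3 2 0)
        (T 1 2 3 + T 1 3 2 + T 2 1 3 + T 2 3 1 + T 3 1 2 + T 3 2 1)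
        (T 3 2 2 + T 2 3 2 + T 2 2 3)
        (T 0 0 0) (T 0 0 1 + T 0 1 0 + T 1 0 0) (T 0 1 1 + T 1 0 1 + T 1 1 0) (T 1 1 1)
        (T 0 0 2 + T 0 2 0 + T 2 0 0)
        (T 0 1 2 + T 0 2 1 + T 1 0 2 + T 1 2 0 + T 2 0 1 + T 2 1 0)
        (T 1 1 2 + T 1 2 1 + T 2 1 1)
        (T 0 2 2 + T 2 0 2 + T 2 2 0) (T 1 2 2 + T 2 1 2 + T 2 2 1) (T 2 2 2)).map C)
        (X 0) (X 1) (X 2) (X 3) := by
    rw [hT]
    simp only [Fin.sum_univ_four, nf, P16.map, C_add, C_sub, C_1]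
    ring
  obtain ⟨p, hp⟩ : ∃ p : P16 K, p = (P16.mk (T 3 0 0 + T 0 3 0 + T 0 0 3)
        (T 0 1 3 + T 0 3 1 + T 1 0 3 + T 1 3 0 + T 3 0 1 + T 3 1 0)
        (T 3 1 1 + T 1 3 1 + T 1 1 3)
        (T 0 2 3 + T 0 3 2 + T 2 0 3 + T 2 3 0 + T 3 0 2 + T 3 2 0)
        (T 1 2 3 + T 1 3 2 + T 2 1 3 + T 2 3 1 + T 3 1 2 + T 3 2 1)
        (T 3 2 2 + T 2 3 2 + T 2 2 3)
        (T 0 0 0) (T 0 0 1 + T 0 1 0 + T 1 0 0) (T 0 1 1 + T 1 0 1 + T 1 1 0) (T 1 1 1)
        (T 0 0 2 + T 0 2 0 + T 2 0 0)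
        (T 0 1 2 + T 0 2 1 + T 1 0 2 + T 1 2 0 + T 2 0 1 + T 2 1 0)
        (T 1 1 2 + T 1 2 1 + T 2 1 1)
        (T 0 2 2 + T 2 0 2 + T 2 2 0) (T 1 2 2 + T 2 1 2 + T 2 2 1) (T 2 2 2)) := ⟨_, rfl⟩
  rw [← hp] at hcol
  generalize T 3 3 3 = e3 at hcol
  generalize T 0 3 3 + T 3 0 3 + T 3 3 0 = u0 at hcol
  generalize T 1 3 3 + T 3 1 3 + T 3 3 1 = u1 at hcol
  generalize T 2 3 3 + T 3 2 3 + T 3 3 2 - 1 = u2 at hcol
  clear hp hT T
  refine ⟨p, ?_⟩
  have g0 : e3 = 0 := by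
    rw [hcol] at h0
    simpa [nf, P16.map] using h0
  have g1 : u0 = 0 := by
    rw [hcol] at h1
    simpa [nf, P16.map, pderiv_X] using h1
  have g2 : u1 = 0 := by
    rw [hcol] at h2
    simpa [nf, P16.map, pderiv_X] using h2
  have g3 : u2 = 0 := by
    rw [hcol] at h3
    simpa [nf, P16.map, pderiv_X] using h3
  rw [hcol, g0, g1, g2, g3]
  simp

end Pool.Agent.Work.MP_4f7796_ag
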