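import Mathlib
import Pool.Agent.Work.MP_4f7796_ag.Red
import Pool.Agent.Work.MP_4f7796_ag.LinAlg
import Pool.Agent.Work.MP_4f7796_ag.Conv

set_option autoImplicit false

open MvPolynomial

namespace Pool.Agent.Work.MP_4f7796_ag

universe u

variable {K : Type u} [Field K]

theorem aeval_nf {S : Type u} [CommRing S] [Algebra K S] (p : P16 K) (y : Fin 4 → S) :
    aeval y (nf (p.map C) (X 0) (X 1) (X 2) (X 3) : MvPolynomial (Fin 4) K) =
      nf (p.map (algebraMap K S)) (y 0) (y 1) (y 2) (y 3) := by
  simp only [nf, P16.map, map_add, map_mul, map_pow, aeval_X, aeval_C]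

theorem Sm_of_smooth (F' : MvPolynomial (Fin 4) K) (p : P16 K)
    (hp : F' = nf (p.map C) (X 0) (X 1) (X 2) (X 3))
    (hs : ∀ y : Fin 4 → AlgebraicClosure K, y ≠ 0 → aeval y F' = 0 →
      ∃ i, aeval y (pderiv i F') ≠ 0) : Sm p := by
  intro s t w hst h0 h1 h2 h3 h4
  obtain ⟨i, hi⟩ := hs ![s, t, 0, w] (by
    intro h
    rcases hst with h' | h'
    · exact h' (congrFun h 0)
    · exact h' (congrFun h 1)) (by
    rw [hp, aeval_nf]
    exact h0)
  apply hi
  fin_cases i
  · simp only [hp, nf, P16.map, map_add, Derivation.leibniz, Derivation.leibniz_pow, pderiv_X,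
      pderiv_C, map_mul, map_pow, aeval_X, aeval_C, smul_eq_mul, nsmul_eq_mul, map_natCast]
    simp
    linear_combination h1
  · simp only [hp, nf, P16.map, map_add, Derivation.leibniz, Derivation.leibniz_pow, pderiv_X,
      pderiv_C, map_mul, map_pow, aeval_X, aeval_C, smul_eq_mul, nsmul_eq_mul, map_natCast]
    simp
    linear_combination h2
  · simp only [hp, nf, P16.map, map_add, Derivation.leibniz, Derivation.leibniz_pow, pderiv_X,
      pderiv_C, map_mul, map_pow, aeval_X, aeval_C, smul_eq_mul, nsmul_eq_mul, map_natCast]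
    simp
    linear_combination h3
  · simp only [hp, nf, P16.map, map_add, Derivation.leibniz, Derivation.leibniz_pow, pderiv_X,
      pderiv_C, map_mul, map_pow, aeval_X, aeval_C, smul_eq_mul, nsmul_eq_mul, map_natCast]
    simp
    linear_combination h4

theorem aeval_K (x : Fin 4 → K) (G : MvPolynomial (Fin 4) K) : aeval x G = eval x G := by
  rw [← coe_aeval_eq_eval]
  rfl

theorem aeval_map_point {S : Type u} [CommRing S] [Algebra K S] (x : Fin 4 → K)
    (G : MvPolynomial (Fin 4) K) :
    aeval (fun i => algebraMap K S (x i)) G = algebraMap K S (eval x G) := by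
  have := aeval_algebraMap_apply S x G
  rw [aeval_K] at this
  exact this

theorem main [Finite K] (F : MvPolynomial (Fin 4) K) (hF : F.IsHomogeneous 3)
    (hs : ∀ p : Fin 4 → AlgebraicClosure K, p ≠ 0 → aeval p F = 0 →
      ∃ i, aeval p (pderiv i F) ≠ 0)
    (x : Fin 4 → K) (hx : x ≠ 0) (hxF : eval x F = 0) :
    ∃ (d : ℕ) (f : Fin 4 → MvPolynomial (Fin 2) K), 0 < d ∧ (∀ i, (f i).IsHomogeneous d) ∧
      (∀ v : Fin 2 → AlgebraicClosure K, v ≠ 0 → ∃ i, aeval v (f i) ≠ 0) ∧
      aeval f F = 0 ∧
      ∃ v : Fin 2 → AlgebraicClosure K, v ≠ 0 ∧ ∃ c : AlgebraicClosure K, c ≠ 0 ∧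
        ∀ i, aeval v (f i) = c * algebraMap K _ (x i) := by
  obtain ⟨n, hn⟩ : ∃ n : Fin 4 → K, n = fun i => eval x (pderiv i F) := ⟨_, rfl⟩
  obtain ⟨i0, hi0⟩ : ∃ i, x i ≠ 0 := by
    by_contra h
    push Not at h
    exact hx (funext h)
  have hn0 : n ≠ 0 := by
    obtain ⟨i, hi⟩ := hs (fun i => algebraMap K _ (x i)) (by
      intro h
      apply hi0
      have := congrFun h i0
      simpa using this) (by rw [aeval_map_point, hxF, map_zero])
    rw [aeval_map_point] at hi
    intro h
    apply hi
    have := congrFun h i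
    rw [hn] at this
    simp only [Pi.zero_apply] at this
    rw [this, map_zero]
  have hnx : ∑ i, n i * x i = 0 := by
    have := congrArg (eval x) hF.sum_X_mul_pderiv
    simp only [map_sum, map_mul, eval_X, map_nsmul, hxF, smul_zero] at this
    rw [← this, hn]
    exact Finset.sum_congr rfl fun i _ => mul_comm _ _
  obtain ⟨A, B, hAB, hBA, hA3, hA0, hA1, hA2⟩ := exists_basis n x hn0 hx hnx
  obtain ⟨g, hg⟩ : ∃ g : Fin 4 → MvPolynomial (Fin 4) K, g = fun i => ∑ j, C (A i j) * X j :=
    ⟨_, rfl⟩
  obtain ⟨F', hF'⟩ : ∃ F', F' = aeval g F := ⟨_, rfl⟩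
  have hF'h : F'.IsHomogeneous 3 := by
    rw [hF']
    have := hF.aeval g (n := 1) (by
      intro i
      rw [hg]
      exact IsHomogeneous.sum _ _ _ fun j _ => isHomogeneous_C_mul_X _ _)
    simpa using this
  have hgA : ∀ (S : Type u) [CommRing S] [Algebra K S] (y : Fin 4 → S),
      (fun i => aeval y (g i)) = fun i => ∑ j, algebraMap K S (A i j) * y j := by
    intro S _ _ y
    funext i
    rw [hg]
    simp
  have hF'A : ∀ (S : Type u) [CommRing S] [Algebra K S] (y : Fin 4 → S) (G : MvPolynomial (Fin 4) K),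
      aeval y (aeval g G) = aeval (fun i => ∑ j, algebraMap K S (A i j) * y j) G := by
    intro S _ _ y G
    rw [← hgA, ← AlgHom.comp_apply, comp_aeval]
  have hpg : ∀ i j, pderiv j (g i) = C (A i j) := by
    intro i j
    rw [hg]
    simp only [map_sum, Derivation.leibniz, pderiv_C, pderiv_X, smul_eq_mul]
    rw [Finset.sum_eq_single j]
    · simp
    · intro b _ hb
      simp [hb]
    · simp
  have hchain : ∀ (S : Type u) [CommRing S] [Algebra K S] (y : Fin 4 → S) (j : Fin 4),
      aeval y (pderiv j F') = ∑ i, aeval (fun i => ∑ j, algebraMap K S (A i j) * y j)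
        (pderiv i F) * algebraMap K S (A i j) := by
    intro S _ _ y j
    rw [hF', chain_rule, map_sum]
    refine Finset.sum_congr rfl fun i _ => ?_
    rw [map_mul, hF'A, hpg, aeval_C]
  have hpt : (fun i => ∑ j, algebraMap K K (A i j) * (![0, 0, 0, 1] : Fin 4 → K) j) = x := by
    funext i
    simp [Fin.sum_univ_four, hA3]
  have e0 : eval ![0, 0, 0, 1] F' = 0 := by
    have := hF'A K ![0, 0, 0, 1] F
    rw [hpt, ← hF', aeval_K, aeval_K] at this
    exact this.trans hxF
  have ej : ∀ j, eval ![0, 0, 0, 1] (pderiv j F') = ∑ i, n i * A i j := by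
    intro j
    have := hchain K ![0, 0, 0, 1] j
    rw [hpt, aeval_K] at this
    refine this.trans ?_
    rw [hn]
    refine Finset.sum_congr rfl fun i _ => ?_
    rw [aeval_K]
    rfl
  obtain ⟨p, hp⟩ := exists_nf F' hF'h e0 ((ej 0).trans hA0) ((ej 1).trans hA1) ((ej 2).trans hA2)
  -- smoothness
  have hsm : Sm p := by
    apply Sm_of_smooth F' p hp
    intro y hy hy0
    by_contra hcon
    push Not at hcon
    obtain ⟨z, hz⟩ : ∃ z : Fin 4 → AlgebraicClosure K,
      z = fun i => ∑ j, algebraMap K _ (A i j) * y j := ⟨_, rfl⟩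
    have hBz : ∀ k, ∑ i, algebraMap K _ (B k i) * z i = y k := by
      intro k
      rw [hz]
      simp only [Finset.mul_sum]
      rw [Finset.sum_comm]
      have : ∀ j, ∑ i, algebraMap K (AlgebraicClosure K) (B k i) *
          (algebraMap K (AlgebraicClosure K) (A i j) * y j) =
          algebraMap K (AlgebraicClosure K) ((B * A) k j) * y j := by
        intro j
        rw [Matrix.mul_apply, map_sum, Finset.sum_mul]
        refine Finset.sum_congr rfl fun i _ => ?_
        rw [map_mul]
        ring
      rw [Finset.sum_congr rfl fun j _ => this j, hBA, Finset.sum_eq_single k]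
      · simp
      · intro b _ hb
        rw [Matrix.one_apply_ne (Ne.symm hb)]
        simp
      · simp
    have hz0 : z ≠ 0 := by
      intro h
      apply hy
      funext k
      rw [← hBz k, h]
      simp
    obtain ⟨i, hi⟩ := hs z hz0 (by
      rw [hz, ← hF'A, ← hF']
      exact hy0)
    apply hi
    have h1 : ∀ j, ∑ i, aeval z (pderiv i F) * algebraMap K _ (A i j) = 0 := by
      intro j
      have := hchain (AlgebraicClosure K) y j
      rw [hcon j, ← hz] at this
      exact this.symm
    have h2 : ∑ j, (∑ i, aeval z (pderiv i F) * algebraMap K _ (A i j)) *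
        algebraMap K _ (B j i) = aeval z (pderiv i F) := by
      simp only [Finset.sum_mul]
      rw [Finset.sum_comm]
      have : ∀ k, ∑ j, aeval z (pderiv k F) * algebraMap K (AlgebraicClosure K) (A k j) *
          algebraMap K (AlgebraicClosure K) (B j i) =
          aeval z (pderiv k F) * algebraMap K (AlgebraicClosure K) ((A * B) k i) := by
        intro k
        rw [Matrix.mul_apply, map_sum, Finset.mul_sum]
        refine Finset.sum_congr rfl fun i _ => ?_
        rw [map_mul]
        ring
      rw [Finset.sum_congr rfl fun j _ => this j, hAB, Finset.sum_eq_single i]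
      · simp
      · intro b _ hb
        rw [Matrix.one_apply_ne hb]
        simp
      · simp
    rw [← h2]
    simp [h1]
  obtain ⟨f, f1, f2, k, ρ, r0, r1, r2, r3, hcurve, hnz⟩ := good_all p hsm
  obtain ⟨y, hy⟩ : ∃ y : Fin 4 → Polynomial K,
    y = fun i => ∑ j, algebraMap K _ (A i j) * (![f, f1, f2, k] : Fin 4 → Polynomial K) j :=
    ⟨_, rfl⟩
  have hρ : ∀ i, Polynomial.aeval ρ (y i) = Polynomial.aeval ρ k * algebraMap K _ (x i) := by
    intro i
    rw [hy]
    simp [Fin.sum_univ_four, r0, r1, r2, hA3, mul_comm]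
  refine conv F hF x hx y ?_ ρ (Polynomial.aeval ρ k) r3 hρ ?_
  · rw [hy, ← hF'A, ← hF', hp, aeval_nf]
    exact hcurve
  · by_contra hcon
    push Not at hcon
    have hx0 : (Polynomial.C (x i0) : Polynomial K) ≠ 0 := by
      rwa [Ne, Polynomial.C_eq_zero]
    have hB : ∀ k', ∑ i, Polynomial.C (B k' i) * y i =
        (![f, f1, f2, k] : Fin 4 → Polynomial K) k' := by
      intro k'
      rw [hy]
      simp only [Finset.mul_sum]
      rw [Finset.sum_comm]
      have : ∀ j, ∑ i, Polynomial.C (B k' i) * (algebraMap K (Polynomial K) (A i j) *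
          (![f, f1, f2, k] : Fin 4 → Polynomial K) j) =
          Polynomial.C ((B * A) k' j) * (![f, f1, f2, k] : Fin 4 → Polynomial K) j := by
        intro j
        rw [Matrix.mul_apply, map_sum, Finset.sum_mul]
        refine Finset.sum_congr rfl fun i _ => ?_
        rw [map_mul, Polynomial.algebraMap_eq]
        ring
      rw [Finset.sum_congr rfl fun j _ => this j, hBA, Finset.sum_eq_single k']
      · simp
      · intro b _ hb
        rw [Matrix.one_apply_ne (Ne.symm hb)]
        simp
      · simp
    have hBx : ∀ k', k' ≠ 3 → ∑ i, B k' i * x i = 0 := by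
      intro k' hk'
      have h1 : (B * A) k' 3 = 0 := by rw [hBA, Matrix.one_apply_ne hk']
      rw [Matrix.mul_apply] at h1
      rw [← h1]
      exact Finset.sum_congr rfl fun i _ => by rw [hA3]
    have hzero : ∀ k', k' ≠ 3 → (![f, f1, f2, k] : Fin 4 → Polynomial K) k' = 0 := by
      intro k' hk'
      apply (mul_eq_zero.1 (_ : Polynomial.C (x i0) * _ = 0)).resolve_left hx0
      rw [← hB k', Finset.mul_sum]
      have h1 : ∀ i, Polynomial.C (x i0) * (Polynomial.C (B k' i) * y i) =
          Polynomial.C (B k' i * x i) * y i0 := by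
        intro i
        have := hcon i i0
        rw [Polynomial.C_mul]
        linear_combination Polynomial.C (B k' i) * this
      rw [Finset.sum_congr rfl fun i _ => h1 i, ← Finset.sum_mul, ← map_sum, hBx k' hk', map_zero,
        zero_mul]
    rcases hnz with h | h | h
    · exact h (hzero 0 (by decide))
    · exact h (hzero 1 (by decide))
    · exact h (hzero 2 (by decide))

end Pool.Agent.Work.MP_4f7796_ag
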